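import Pool.Agent.Lib_helper68.OCN.YcJ0

/-!
# MP_aeb124_co: number game, block (R): the base elements (tops and survivors)
-/

set_option autoImplicit false

namespace Pool.Agent.OCN.YC

variable {f : ℕ} {v : Vd} {β : Multiset ℕ}

/-- the number of the elements which are at least `t` -/
def cg (t : ℕ) (S : Multiset ℕ) : ℕ := Multiset.card (S.filter fun j => t ≤ j)

theorem cg_def (t : ℕ) (S : Multiset ℕ) : Multiset.card (S.filter fun j => t ≤ j) = cg t S := rfl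

@[simp] theorem cg_zero (t : ℕ) : cg t 0 = 0 := rfl

theorem cg_cons (t j : ℕ) (S : Multiset ℕ) : cg t (j ::ₘ S) = (if t ≤ j then 1 else 0) + cg t S := by
  unfold cg
  by_cases h : t ≤ j
  · rw [Multiset.filter_cons_of_pos (p := fun j => t ≤ j) S h, Multiset.card_cons, if_pos h,
      add_comm]
  · rw [Multiset.filter_cons_of_neg (p := fun j => t ≤ j) S h, if_neg h, zero_add]

theorem cg_le_card (t : ℕ) (S : Multiset ℕ) : cg t S ≤ Multiset.card S :=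
  Multiset.card_le_card (Multiset.filter_le _ _)

theorem cg_eq_zero {t : ℕ} {S : Multiset ℕ} : cg t S = 0 ↔ ∀ j ∈ S, j < t := by
  unfold cg
  rw [Multiset.card_eq_zero, Multiset.filter_eq_nil]
  exact ⟨fun h j hj => not_le.1 (h j hj), fun h j hj => not_le.2 (h j hj)⟩

theorem cg_map_succ (t : ℕ) (S : Multiset ℕ) : cg (t + 1) (S.map (· + 1)) = cg t S := by
  induction S using Multiset.induction_on with
  | empty => rfl
  | cons j S ih =>
    rw [Multiset.map_cons, cg_cons, cg_cons, ih]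
    congr 1
    by_cases h : t ≤ j
    · rw [if_pos h, if_pos (by omega)]
    · rw [if_neg h, if_neg (by omega)]

theorem cg_add_lt (t : ℕ) (S : Multiset ℕ) :
    cg t S + Multiset.card (S.filter fun d => d < t) = Multiset.card S := by
  induction S using Multiset.induction_on with
  | empty => rfl
  | cons j S ih =>
    rw [cg_cons, Multiset.card_cons]
    by_cases h : t ≤ j
    · rw [if_pos h, Multiset.filter_cons_of_neg (p := fun d => d < t) S (by omega)]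
      omega
    · rw [if_neg h, Multiset.filter_cons_of_pos (p := fun d => d < t) S (by omega),
        Multiset.card_cons]
      omega

/-- the statement `Rp` with the numbers as arguments -/
def RpR (f m c z n d p X : ℕ) (md : Bool) (β : Multiset ℕ) : Prop :=
  ∃ τ γ : Multiset ℕ, β = τ + γ ∧ (∀ j ∈ β, j ≤ c) ∧ Multiset.card τ ≤ m ∧
    cg c τ + z ≤ m ∧ Multiset.card γ ≤ n ∧
    (md = true → cg (d + 1) γ ≤ p ∧ ex (d + 1) γ ≤ X) ∧ (md = false → exs m f γ ≤ X)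

theorem rp_iff : Rp f v β ↔ RpR f v.m v.c v.z v.n v.d v.p v.X v.md β := Iff.rfl

/-- R1: pay `k` units of the excess -/
theorem rp_X (h : Rp f v β) (hmf : v.md = false → v.m ≤ f) (k : ℕ) (hk : k ≤ v.X) :
    ∃ β' k', Lw β β' k' ∧ k' ≤ k ∧ Rp f { v with X := v.X - k } β' := by
  obtain ⟨τ, γ, hβ, hc, h1, h2, h3, h4, h5⟩ := rp_iff.1 h
  rcases hmd : v.md with _ | _
  · have hm := hmf hmd
    have h6 := h5 hmd
    obtain ⟨γ', g1, g2, g3, g4⟩ := Lw.fill' γ (f - v.m) k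
    have g5 : Lw β (τ + γ') (min k (ex (f - v.m) γ)) := hβ ▸ g1.add_left τ
    refine ⟨τ + γ', _, g5, min_le_left _ _, τ, γ', rfl, g5.le hc, h1, h2, ?_, fun h => ?_,
      fun _ => ?_⟩
    · show Multiset.card γ' ≤ v.n
      rw [g1.card]
      exact h3
    · exact (Bool.false_ne_true h).elim
    · show exs v.m f γ' ≤ v.X - k
      rw [exs_eq_ex hm, g2 _ le_rfl]
      rw [exs_eq_ex hm] at h6
      omega
  · obtain ⟨h6, h7⟩ := h4 hmd
    obtain ⟨γ', g1, g2, g3, g4⟩ := Lw.fill' γ (v.d + 1) k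
    have g5 : Lw β (τ + γ') (min k (ex (v.d + 1) γ)) := hβ ▸ g1.add_left τ
    refine ⟨τ + γ', _, g5, min_le_left _ _, τ, γ', rfl, g5.le hc, h1, h2, ?_,
      fun _ => ⟨?_, ?_⟩, fun h => ?_⟩
    · show Multiset.card γ' ≤ v.n
      rw [g1.card]
      exact h3
    · show cg (v.d + 1) γ' ≤ v.p
      have k1 := cg_add_lt (v.d + 1) γ
      have k2 := cg_add_lt (v.d + 1) γ'
      rw [g4, g1.card] at k2
      omega
    · show ex (v.d + 1) γ' ≤ v.X - k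
      rw [g2 _ le_rfl]
      omega
    · exact (Bool.false_ne_true h.symm).elim

/-- R2, one step -/
theorem rp_z_one (h : Rp f v β) (hc : 1 ≤ v.c) (hk : v.z + 1 ≤ v.m) :
    ∃ β' k', Lw β β' k' ∧ k' ≤ 1 ∧ Rp f { v with z := v.z + 1 } β' := by
  obtain ⟨τ, γ, hβ, hle, h1, h2, h3, h4, h5⟩ := rp_iff.1 h
  by_cases h0 : cg v.c τ = 0
  · refine ⟨β, 0, Lw.refl _, Nat.zero_le _, τ, γ, hβ, hle, h1, ?_, h3, h4, h5⟩
    show cg v.c τ + (v.z + 1) ≤ v.m
    omega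
  · obtain ⟨t, ht, htc⟩ : ∃ t ∈ τ, v.c ≤ t := by
      by_contra hcon
      push Not at hcon
      exact h0 (cg_eq_zero.2 hcon)
    have hte : t ≤ v.c := hle t (by rw [hβ]; exact Multiset.mem_add.2 (Or.inl ht))
    obtain ⟨τ0, rfl⟩ := Multiset.exists_cons_of_mem ht
    have g0 : Lw (t ::ₘ τ0) ((v.c - 1) ::ₘ τ0) 1 := by
      have e1 : t = (v.c - 1) + 1 := by omega
      have g := Lw.one (v.c - 1) τ0
      rwa [← e1] at g
    have g1 : Lw β ((v.c - 1) ::ₘ τ0 + γ) 1 := hβ ▸ g0.add_right γ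
    refine ⟨_, 1, g1, le_rfl, (v.c - 1) ::ₘ τ0, γ, rfl, g1.le hle, ?_, ?_, h3, h4, h5⟩
    · show Multiset.card ((v.c - 1) ::ₘ τ0) ≤ v.m
      rw [Multiset.card_cons] at h1 ⊢
      exact h1
    · show cg v.c ((v.c - 1) ::ₘ τ0) + (v.z + 1) ≤ v.m
      rw [cg_cons, if_pos htc] at h2
      rw [cg_cons, if_neg (by omega)]
      omega

/-- R2: lower `k` tops to `c - 1` -/
theorem rp_z (h : Rp f v β) (hc : 1 ≤ v.c) (k : ℕ) (hk : v.z + k ≤ v.m) :
    ∃ β' k', Lw β β' k' ∧ k' ≤ k ∧ Rp f { v with z := v.z + k } β' := by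
  induction k with
  | zero => exact ⟨β, 0, Lw.refl _, le_rfl, h⟩
  | succ k ih =>
    obtain ⟨β', k', g1, g2, g3⟩ := ih (by omega)
    obtain ⟨β'', k'', g4, g5, g6⟩ := rp_z_one g3 hc (by show v.z + k + 1 ≤ v.m; omega)
    exact ⟨β'', k' + k'', g1.trans g4, by omega, g6⟩

/-- R3: all the tops are on the level `c - 1` -/
theorem rp_down (h : Rp f v β) (hX : v.X = 0) (hz : v.m ≤ v.z) (hc : f + v.m < v.c)
    (hd : v.md = true → v.d + 1 < v.c) : Rp f { v with c := v.c - 1, z := 0 } β := by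
  obtain ⟨τ, γ, hβ, hle, h1, h2, h3, h4, h5⟩ := rp_iff.1 h
  have h0 : cg v.c τ = 0 := by omega
  have hτ := cg_eq_zero.1 h0
  have hγ : ∀ j ∈ γ, j ≤ v.c - 1 := by
    intro j hj
    rcases hmd : v.md with _ | _
    · have h6 := h5 hmd
      obtain ⟨γ0, rfl⟩ := Multiset.exists_cons_of_mem hj
      rw [exs_cons] at h6
      omega
    · obtain ⟨h6, h7⟩ := h4 hmd
      have h8 : ex (v.d + 1) γ = 0 := by omega
      have h9 := ex_eq_zero.1 h8 j hj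
      have := hd hmd
      omega
  refine ⟨τ, γ, hβ, fun j hj => ?_, h1, ?_, h3, h4, h5⟩
  · show j ≤ v.c - 1
    rw [hβ] at hj
    rcases Multiset.mem_add.1 hj with h | h
    · have := hτ j h
      omega
    · exact hγ j h
  · show cg (v.c - 1) τ + 0 ≤ v.m
    have := cg_le_card (v.c - 1) τ
    omega

/-- R4, one step -/
theorem rp_p_one (h : Rp f v β) (hmd : v.md = true) (hX : v.X = 0) (hk : 1 ≤ v.p) :
    ∃ β' k', Lw β β' k' ∧ k' ≤ 1 ∧ Rp f { v with p := v.p - 1 } β' := by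
  obtain ⟨τ, γ, hβ, hle, h1, h2, h3, h4, h5⟩ := rp_iff.1 h
  obtain ⟨h6, h7⟩ := h4 hmd
  have hmd' : ∀ {P : Prop}, v.md = false → P := fun h => absurd (hmd.symm.trans h) (by decide)
  by_cases h0 : cg (v.d + 1) γ = 0
  · refine ⟨β, 0, Lw.refl _, Nat.zero_le _, τ, γ, hβ, hle, h1, h2, h3, fun _ => ⟨?_, h7⟩,
      fun h => hmd' h⟩
    show cg (v.d + 1) γ ≤ v.p - 1
    omega
  · obtain ⟨t, ht, htc⟩ : ∃ t ∈ γ, v.d + 1 ≤ t := by
      by_contra hcon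
      push Not at hcon
      exact h0 (cg_eq_zero.2 fun j hj => hcon j hj)
    have hte : t ≤ v.d + 1 := ex_eq_zero.1 (by omega : ex (v.d + 1) γ = 0) t ht
    obtain ⟨γ0, rfl⟩ := Multiset.exists_cons_of_mem ht
    have g0 : Lw (t ::ₘ γ0) (v.d ::ₘ γ0) 1 := by
      have e1 : t = v.d + 1 := by omega
      rw [e1]
      exact Lw.one v.d γ0
    have g1 : Lw β (τ + v.d ::ₘ γ0) 1 := hβ ▸ g0.add_left τ
    refine ⟨_, 1, g1, le_rfl, τ, v.d ::ₘ γ0, rfl, g1.le hle, h1, h2, ?_, fun _ => ⟨?_, ?_⟩,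
      fun h => hmd' h⟩
    · show Multiset.card (v.d ::ₘ γ0) ≤ v.n
      rw [Multiset.card_cons] at h3 ⊢
      exact h3
    · show cg (v.d + 1) (v.d ::ₘ γ0) ≤ v.p - 1
      rw [cg_cons, if_pos htc] at h6
      rw [cg_cons, if_neg (by omega)]
      omega
    · show ex (v.d + 1) (v.d ::ₘ γ0) ≤ v.X
      rw [ex_cons] at h7 ⊢
      omega

/-- R4: pay `k` of the survivors above `d` -/
theorem rp_p (h : Rp f v β) (hmd : v.md = true) (hX : v.X = 0) (k : ℕ) (hk : k ≤ v.p) :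
    ∃ β' k', Lw β β' k' ∧ k' ≤ k ∧ Rp f { v with p := v.p - k } β' := by
  induction k with
  | zero => exact ⟨β, 0, Lw.refl _, le_rfl, h⟩
  | succ k ih =>
    obtain ⟨β', k', g1, g2, g3⟩ := ih (by omega)
    obtain ⟨β'', k'', g4, g5, g6⟩ := rp_p_one g3 hmd hX (by show 1 ≤ v.p - k; omega)
    exact ⟨β'', k' + k'', g1.trans g4, by omega, g6⟩

/-- R5: the survivors are one level above the new base -/
theorem rp_base (h : Rp f v β) (hmd : v.md = true) (hp : v.p = 0) (hd : 1 ≤ v.d) :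
    Rp f { v with d := v.d - 1, p := v.n, X := 0 } β := by
  obtain ⟨τ, γ, hβ, hle, h1, h2, h3, h4, h5⟩ := rp_iff.1 h
  obtain ⟨h6, h7⟩ := h4 hmd
  have h8 := cg_eq_zero.1 (by omega : cg (v.d + 1) γ = 0)
  refine ⟨τ, γ, hβ, hle, h1, h2, h3, fun _ => ⟨?_, ?_⟩,
    fun h => absurd (hmd.symm.trans h) (by decide)⟩
  · exact (cg_le_card _ _).trans h3
  · show ex (v.d - 1 + 1) γ ≤ 0
    rw [show v.d - 1 + 1 = v.d by omega]
    exact (ex_eq_zero.2 fun j hj => Nat.lt_succ_iff.1 (h8 j hj)).le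

/-- the new number `z` if a top disappears -/
theorem rp_z' {τ0 : Multiset ℕ} {m c z F : ℕ} (h1 : Multiset.card τ0 + 1 ≤ m)
    (h2 : cg c τ0 ≤ F) (h3 : F + z ≤ m) :
    min z (m - 1 - cg c τ0) + 1 ≤ m ∧ min z (m - 1 - cg c τ0) ≤ z ∧
      z ≤ min z (m - 1 - cg c τ0) + 1 ∧ cg c τ0 + min z (m - 1 - cg c τ0) ≤ m - 1 := by
  have := cg_le_card c τ0
  omega

/-- the attack of a base element, general form: `x` is the excess function -/
theorem rp_T_aux {j m c z n : ℕ} (hle : ∀ i ∈ j ::ₘ β, i ≤ c) {τ γ : Multiset ℕ}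
    (hβ : j ::ₘ β = τ + γ) (h1 : Multiset.card τ ≤ m) (h2 : cg c τ + z ≤ m) (hz : z ≤ m)
    (h3 : Multiset.card γ ≤ n) (hm : 1 ≤ m) :
    ∃ τ' γ' z', 0 ::ₘ β = τ' + γ' ∧ (∀ i ∈ 0 ::ₘ β, i ≤ c) ∧ Multiset.card τ' ≤ m - 1 ∧
      cg c τ' + z' ≤ m - 1 ∧ Multiset.card γ' ≤ n + 1 ∧ z' + 1 ≤ m ∧ z' ≤ z ∧ z ≤ z' + 1 ∧
      j ≤ c ∧
      (γ' = 0 ::ₘ γ ∨ ∃ γ0, γ = j ::ₘ γ0 ∧ (γ' = 0 ::ₘ γ0 ∨ ∃ t, t ≤ c ∧ γ' = 0 ::ₘ t ::ₘ γ0)) := by
  have hle' : ∀ i ∈ 0 ::ₘ β, i ≤ c := by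
    intro i hi
    rcases Multiset.mem_cons.1 hi with h | h
    · omega
    · exact hle i (Multiset.mem_cons_of_mem h)
  have hjc := hle j (Multiset.mem_cons_self _ _)
  have hj : j ∈ τ + γ := by
    rw [← hβ]
    exact Multiset.mem_cons_self _ _
  rcases Multiset.mem_add.1 hj with h | h
  · obtain ⟨τ0, rfl⟩ := Multiset.exists_cons_of_mem h
    rw [Multiset.cons_add, Multiset.cons_inj_right] at hβ
    rw [Multiset.card_cons] at h1
    have k1 : cg c τ0 ≤ cg c (j ::ₘ τ0) := by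
      rw [cg_cons]
      exact Nat.le_add_left _ _
    obtain ⟨g1, g2, g3, g4⟩ := rp_z' h1 k1 h2
    refine ⟨τ0, 0 ::ₘ γ, _, ?_, hle', by omega, g4, ?_, g1, g2, g3, hjc, Or.inl rfl⟩
    · rw [Multiset.add_cons, hβ]
    · rw [Multiset.card_cons]
      omega
  · obtain ⟨γ0, rfl⟩ := Multiset.exists_cons_of_mem h
    rw [Multiset.add_cons, Multiset.cons_inj_right] at hβ
    rw [Multiset.card_cons] at h3
    by_cases hτ : τ = 0
    · subst hτ
      rw [zero_add] at hβ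
      refine ⟨0, 0 ::ₘ γ0, min z (m - 1), ?_, hle', by rw [Multiset.card_zero]; omega, ?_, ?_,
        by omega, by omega, by omega, hjc, Or.inr ⟨γ0, rfl, Or.inl rfl⟩⟩
      · rw [zero_add, hβ]
      · rw [cg_zero]
        omega
      · rw [Multiset.card_cons]
        omega
    · obtain ⟨t, ht⟩ := Multiset.exists_mem_of_ne_zero hτ
      obtain ⟨τ0, rfl⟩ := Multiset.exists_cons_of_mem ht
      have htc : t ≤ c := by
        apply hle t
        rw [hβ]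
        exact Multiset.mem_cons_of_mem (Multiset.mem_add.2 (Or.inl (Multiset.mem_cons_self _ _)))
      rw [Multiset.card_cons] at h1
      have k1 : cg c τ0 ≤ cg c (t ::ₘ τ0) := by
        rw [cg_cons]
        exact Nat.le_add_left _ _
      obtain ⟨g1, g2, g3, g4⟩ := rp_z' h1 k1 h2
      refine ⟨τ0, 0 ::ₘ t ::ₘ γ0, _, ?_, hle', by omega, g4, ?_, g1, g2, g3, hjc,
        Or.inr ⟨γ0, rfl, Or.inr ⟨t, htc, rfl⟩⟩⟩
      · rw [hβ, Multiset.cons_add, Multiset.add_cons, Multiset.add_cons]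
      · rw [Multiset.card_cons, Multiset.card_cons]
        omega

/-- R6, the excess over `d + 1` -/
theorem rp_T_ex {j c d X p : ℕ} {γ γ' : Multiset ℕ} (hX : ex (d + 1) γ ≤ X)
    (hp : cg (d + 1) γ ≤ p) (hd : d ≤ c) (hj : j ≤ c)
    (h : γ' = 0 ::ₘ γ ∨ ∃ γ0, γ = j ::ₘ γ0 ∧ (γ' = 0 ::ₘ γ0 ∨ ∃ t, t ≤ c ∧ γ' = 0 ::ₘ t ::ₘ γ0)) :
    ∃ X', j + X' ≤ X + c + 1 ∧ X' ≤ X + c ∧ ex (d + 1) γ' ≤ X' ∧
      cg (d + 1) γ' ≤ if d + 1 ≤ c then p + 1 else p := by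
  rcases h with rfl | ⟨γ0, rfl, rfl | ⟨t, ht, rfl⟩⟩
  · refine ⟨X, by omega, by omega, ?_, ?_⟩
    · rw [ex_cons]
      omega
    · rw [cg_cons, if_neg (by omega)]
      split_ifs <;> omega
  · rw [ex_cons] at hX
    rw [cg_cons] at hp
    refine ⟨X - (j - (d + 1)), by omega, by omega, ?_, ?_⟩
    · rw [ex_cons]
      omega
    · rw [cg_cons, if_neg (by omega)]
      split_ifs at hp ⊢ <;> omega
  · rw [ex_cons] at hX
    rw [cg_cons] at hp
    refine ⟨X + (c - (d + 1)) - (j - (d + 1)), by omega, by omega, ?_, ?_⟩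
    · rw [ex_cons, ex_cons]
      omega
    · rw [cg_cons, if_neg (by omega), cg_cons]
      split_ifs at hp ⊢ <;> omega

/-- R6A: the attack of a base element, mode A -/
theorem rp_T_A {j : ℕ} (h : Rp f v (j ::ₘ β)) (hmd : v.md = true) (hm : 1 ≤ v.m)
    (hz : v.z ≤ v.m) (hd : v.d ≤ v.c) : ∃ z' X' : ℕ, z' + 1 ≤ v.m ∧ z' ≤ v.z ∧ v.z ≤ z' + 1 ∧
      j + X' + v.z ≤ v.X + z' + v.c + 2 ∧ X' ≤ v.X + v.c ∧
      Rp f { v with m := v.m - 1, z := z', n := v.n + 1,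
                    p := if v.d + 1 ≤ v.c then v.p + 1 else v.p, X := X' } (0 ::ₘ β) := by
  obtain ⟨τ, γ, hβ, hle, h1, h2, h3, h4, h5⟩ := rp_iff.1 h
  obtain ⟨h6, h7⟩ := h4 hmd
  obtain ⟨τ', γ', z', g1, g2, g3, g4, g5, g6, g7, g8, g9, g10⟩ :=
    rp_T_aux hle hβ h1 h2 hz h3 hm
  obtain ⟨X', k1, k2, k3, k4⟩ := rp_T_ex h7 h6 hd g9 g10
  exact ⟨z', X', g6, g7, g8, by omega, k2, τ', γ', g1, g2, g3, g4, g5, fun _ => ⟨k4, k3⟩,
    fun h => absurd (hmd.symm.trans h) (by decide)⟩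

/-- R6AH: the attack of a base element, mode A becomes mode H -/
theorem rp_T_AH {j : ℕ} (h : Rp f v (j ::ₘ β)) (hmd : v.md = true) (hm : 1 ≤ v.m)
    (hz : v.z ≤ v.m) (hd : v.d ≤ v.c) (hdm : v.d + v.m = f) :
    ∃ z' X' : ℕ, z' + 1 ≤ v.m ∧ z' ≤ v.z ∧ v.z ≤ z' + 1 ∧
      j + X' + v.z ≤ v.X + z' + v.c + 2 ∧ X' ≤ v.X + v.c ∧
      Rp f { v with m := v.m - 1, z := z', n := v.n + 1, X := X', md := false } (0 ::ₘ β) := by
  obtain ⟨τ, γ, hβ, hle, h1, h2, h3, h4, h5⟩ := rp_iff.1 h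
  obtain ⟨h6, h7⟩ := h4 hmd
  obtain ⟨τ', γ', z', g1, g2, g3, g4, g5, g6, g7, g8, g9, g10⟩ :=
    rp_T_aux hle hβ h1 h2 hz h3 hm
  obtain ⟨X', k1, k2, k3, k4⟩ := rp_T_ex h7 h6 hd g9 g10
  refine ⟨z', X', g6, g7, g8, by omega, k2, τ', γ', g1, g2, g3, g4, g5,
    fun h => (Bool.false_ne_true h).elim, fun _ => ?_⟩
  show exs (v.m - 1) f γ' ≤ X'
  rw [exs_eq_ex (by omega), show f - (v.m - 1) = v.d + 1 by omega]
  exact k3

theorem exs_pred_le (m q : ℕ) (S : Multiset ℕ) : exs (m - 1) q S ≤ exs m q S := by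
  rcases m with _ | m
  · exact le_rfl
  · exact exs_le_succ m q S

/-- R6H: the attack of a base element, mode H -/
theorem rp_T_H {j : ℕ} (h : Rp f v (j ::ₘ β)) (hmd : v.md = false) (hm : 1 ≤ v.m)
    (hz : v.z ≤ v.m) (hmf : v.m ≤ f) :
    ∃ z' X' : ℕ, z' + 1 ≤ v.m ∧ z' ≤ v.z ∧ v.z ≤ z' + 1 ∧
      j + X' + v.z ≤ v.X + z' + v.c + 2 ∧ X' ≤ v.X + v.c ∧
      Rp f { v with m := v.m - 1, z := z', n := v.n + 1, X := X' } (0 ::ₘ β) := by
  obtain ⟨τ, γ, hβ, hle, h1, h2, h3, h4, h5⟩ := rp_iff.1 h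
  have h6 := h5 hmd
  obtain ⟨τ', γ', z', g1, g2, g3, g4, g5, g6, g7, g8, g9, g10⟩ :=
    rp_T_aux hle hβ h1 h2 hz h3 hm
  obtain ⟨X', k1, k2, k3⟩ : ∃ X', j + X' ≤ v.X + v.c + 1 ∧ X' ≤ v.X + v.c ∧
      exs (v.m - 1) f γ' ≤ X' := by
    rcases g10 with rfl | ⟨γ0, rfl, rfl | ⟨t, ht, rfl⟩⟩
    · refine ⟨v.X, by omega, by omega, ?_⟩
      rw [exs_cons]
      have := exs_pred_le v.m f γ
      omega
    · rw [exs_cons] at h6
      have := exs_pred_le v.m f γ0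
      refine ⟨v.X - (j + v.m - f), by omega, by omega, ?_⟩
      rw [exs_cons]
      omega
    · rw [exs_cons] at h6
      have := exs_pred_le v.m f γ0
      refine ⟨v.X + (v.c + v.m - (f + 1)) - (j + v.m - f), by omega, by omega, ?_⟩
      rw [exs_cons, exs_cons]
      omega
  exact ⟨z', X', g6, g7, g8, by omega, k2, τ', γ', g1, g2, g3, g4, g5,
    fun h => absurd (hmd.symm.trans h) (by decide), fun _ => k3⟩

/-- R7, general form -/
theorem rp_F_aux {m c z n : ℕ} (hle : ∀ i ∈ β, i ≤ c) {τ γ : Multiset ℕ}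
    (hβ : β = τ + γ) (h1 : Multiset.card τ ≤ m) (h2 : cg c τ + z ≤ m)
    (h3 : Multiset.card γ ≤ n) (hm : 1 ≤ m) :
    ∃ τ' γ', β = τ' + γ' ∧ Multiset.card τ' ≤ m - 1 ∧ cg c τ' + min z (m - 1) ≤ m - 1 ∧
      Multiset.card γ' ≤ n + 1 ∧ (γ' = γ ∨ ∃ t, t ≤ c ∧ γ' = t ::ₘ γ) := by
  by_cases hτ : τ = 0
  · subst hτ
    refine ⟨0, γ, hβ, by rw [Multiset.card_zero]; omega, ?_, by omega, Or.inl rfl⟩
    rw [cg_zero]
    omega
  · obtain ⟨t, τ0, rfl, hmax⟩ := exists_max τ hτ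
    have htc : t ≤ c := by
      apply hle t
      rw [hβ]
      exact Multiset.mem_add.2 (Or.inl (Multiset.mem_cons_self _ _))
    rw [Multiset.card_cons] at h1
    refine ⟨τ0, t ::ₘ γ, ?_, by omega, ?_, ?_, Or.inr ⟨t, htc, rfl⟩⟩
    · rw [hβ, Multiset.cons_add, Multiset.add_cons]
    · rw [cg_cons] at h2
      by_cases hc : c ≤ t
      · rw [if_pos hc] at h2
        omega
      · have : cg c τ0 = 0 := cg_eq_zero.2 fun i hi => by
          have := hmax i (Multiset.mem_cons_of_mem hi)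
          omega
        omega
    · rw [Multiset.card_cons]
      omega

theorem rp_F_ex {c d X p : ℕ} {γ γ' : Multiset ℕ} (hX : ex (d + 1) γ ≤ X)
    (hp : cg (d + 1) γ ≤ p) (h : γ' = γ ∨ ∃ t, t ≤ c ∧ γ' = t ::ₘ γ) :
    ex (d + 1) γ' ≤ X + (c - (d + 1)) ∧ cg (d + 1) γ' ≤ if d + 1 ≤ c then p + 1 else p := by
  rcases h with rfl | ⟨t, ht, rfl⟩
  · refine ⟨by omega, ?_⟩
    split_ifs <;> omega
  · rw [ex_cons, cg_cons]
    refine ⟨by omega, ?_⟩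
    split_ifs <;> omega

/-- R7A: a top becomes a survivor, mode A -/
theorem rp_F_A (h : Rp f v β) (hmd : v.md = true) (hm : 1 ≤ v.m) (hz : v.z ≤ v.m) :
    Rp f { v with m := v.m - 1, z := min v.z (v.m - 1), n := v.n + 1,
                  p := if v.d + 1 ≤ v.c then v.p + 1 else v.p,
                  X := v.X + (v.c - (v.d + 1)) } β := by
  obtain ⟨τ, γ, hβ, hle, h1, h2, h3, h4, h5⟩ := rp_iff.1 h
  obtain ⟨h6, h7⟩ := h4 hmd
  obtain ⟨τ', γ', g1, g2, g3, g4, g5⟩ := rp_F_aux hle hβ h1 h2 h3 hm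
  obtain ⟨k1, k2⟩ := rp_F_ex h7 h6 g5
  exact ⟨τ', γ', g1, hle, g2, g3, g4, fun _ => ⟨k2, k1⟩,
    fun h => absurd (hmd.symm.trans h) (by decide)⟩

/-- R7AH: a top becomes a survivor, mode A becomes mode H -/
theorem rp_F_AH (h : Rp f v β) (hmd : v.md = true) (hm : 1 ≤ v.m) (hz : v.z ≤ v.m)
    (hdm : v.d + v.m = f) :
    Rp f { v with m := v.m - 1, z := min v.z (v.m - 1), n := v.n + 1,
                  X := v.X + (v.c - (v.d + 1)), md := false } β := by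
  obtain ⟨τ, γ, hβ, hle, h1, h2, h3, h4, h5⟩ := rp_iff.1 h
  obtain ⟨h6, h7⟩ := h4 hmd
  obtain ⟨τ', γ', g1, g2, g3, g4, g5⟩ := rp_F_aux hle hβ h1 h2 h3 hm
  obtain ⟨k1, k2⟩ := rp_F_ex h7 h6 g5
  refine ⟨τ', γ', g1, hle, g2, g3, g4, fun h => (Bool.false_ne_true h).elim, fun _ => ?_⟩
  show exs (v.m - 1) f γ' ≤ v.X + (v.c - (v.d + 1))
  rw [exs_eq_ex (by omega), show f - (v.m - 1) = v.d + 1 by omega]
  exact k1

/-- R7H: a top becomes a survivor, mode H -/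
theorem rp_F_H (h : Rp f v β) (hmd : v.md = false) (hm : 1 ≤ v.m) (hz : v.z ≤ v.m) :
    Rp f { v with m := v.m - 1, z := min v.z (v.m - 1), n := v.n + 1,
                  X := v.X + (v.c + v.m - (f + 1)) } β := by
  obtain ⟨τ, γ, hβ, hle, h1, h2, h3, h4, h5⟩ := rp_iff.1 h
  have h6 := h5 hmd
  obtain ⟨τ', γ', g1, g2, g3, g4, g5⟩ := rp_F_aux hle hβ h1 h2 h3 hm
  refine ⟨τ', γ', g1, hle, g2, g3, g4, fun h => absurd (hmd.symm.trans h) (by decide),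
    fun _ => ?_⟩
  show exs (v.m - 1) f γ' ≤ v.X + (v.c + v.m - (f + 1))
  have k1 := exs_pred_le v.m f γ
  rcases g5 with rfl | ⟨t, ht, rfl⟩
  · omega
  · rw [exs_cons]
    omega

/-- R8: a new element of level 0 -/
theorem rp_h (h : Rp f v β) (hmf : v.md = false → v.m ≤ f) :
    Rp f { v with n := v.n + 1 } (0 ::ₘ β) := by
  obtain ⟨τ, γ, hβ, hle, h1, h2, h3, h4, h5⟩ := rp_iff.1 h
  refine ⟨τ, 0 ::ₘ γ, ?_, ?_, h1, h2, ?_, fun hmd => ⟨?_, ?_⟩, fun hmd => ?_⟩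
  · rw [Multiset.add_cons, hβ]
  · intro j hj
    rcases Multiset.mem_cons.1 hj with h | h
    · rw [h]
      exact Nat.zero_le _
    · exact hle j h
  · show Multiset.card (0 ::ₘ γ) ≤ v.n + 1
    rw [Multiset.card_cons]
    omega
  · show cg (v.d + 1) (0 ::ₘ γ) ≤ v.p
    have := (h4 hmd).1
    rw [cg_cons, if_neg (by omega)]
    omega
  · show ex (v.d + 1) (0 ::ₘ γ) ≤ v.X
    have := (h4 hmd).2
    rw [ex_cons]
    omega
  · show exs v.m f (0 ::ₘ γ) ≤ v.X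
    have := h5 hmd
    have := hmf hmd
    rw [exs_cons]
    omega

/-- R9, general form -/
theorem rp_conv_aux {m c z n : ℕ} (hle : ∀ i ∈ β, i ≤ c) {τ γ : Multiset ℕ}
    (hβ : β = τ + γ) (h1 : Multiset.card τ ≤ m) (h2 : cg c τ + z ≤ m)
    (h3 : Multiset.card γ ≤ n) (hβ0 : β ≠ 0) (hm : 1 ≤ m) :
    ∃ j δ τ' γ', β = j ::ₘ δ ∧ j ≤ c ∧ δ = τ' + γ' ∧ Multiset.card τ' ≤ m - 1 ∧
      (∀ i ∈ δ.map (· + 1), i ≤ c + 1) ∧ Multiset.card γ' ≤ n ∧ (γ' = γ ∨ γ = j ::ₘ γ') := by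
  have key : ∀ j δ, β = j ::ₘ δ → j ≤ c ∧ ∀ i ∈ δ.map (· + 1), i ≤ c + 1 := by
    intro j δ h
    refine ⟨hle j (by rw [h]; exact Multiset.mem_cons_self _ _), fun i hi => ?_⟩
    obtain ⟨i', hi', rfl⟩ := Multiset.mem_map.1 hi
    exact Nat.succ_le_succ (hle i' (by rw [h]; exact Multiset.mem_cons_of_mem hi'))
  by_cases hτ : τ = 0
  · subst hτ
    rw [zero_add] at hβ
    have hγ : γ ≠ 0 := fun h => hβ0 (hβ.trans h)
    obtain ⟨j, hj⟩ := Multiset.exists_mem_of_ne_zero hγ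
    obtain ⟨γ0, rfl⟩ := Multiset.exists_cons_of_mem hj
    rw [Multiset.card_cons] at h3
    obtain ⟨k1, k2⟩ := key j γ0 hβ
    exact ⟨j, γ0, 0, γ0, hβ, k1, (zero_add _).symm, by rw [Multiset.card_zero]; omega, k2,
      by omega, Or.inr rfl⟩
  · obtain ⟨j, hj⟩ := Multiset.exists_mem_of_ne_zero hτ
    obtain ⟨τ0, rfl⟩ := Multiset.exists_cons_of_mem hj
    rw [Multiset.card_cons] at h1
    rw [Multiset.cons_add] at hβ
    obtain ⟨k1, k2⟩ := key j _ hβ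
    exact ⟨j, τ0 + γ, τ0, γ, hβ, k1, rfl, by omega, k2, h3, Or.inl rfl⟩

/-- R9A: conversion, mode A, `d < f` -/
theorem rp_conv_A (h : Rp f v β) (hmd : v.md = true) (hX : v.X = 0) (hβ : β ≠ 0)
    (hm : 1 ≤ v.m) : ∃ j γ, β = j ::ₘ γ ∧ j ≤ v.c ∧
      Rp f { v with c := v.c + 1, m := v.m - 1, z := 0, d := v.d + 1 } (γ.map (· + 1)) := by
  obtain ⟨τ, γ, hβ', hle, h1, h2, h3, h4, h5⟩ := rp_iff.1 h
  obtain ⟨h6, h7⟩ := h4 hmd
  obtain ⟨j, δ, τ', γ', g1, g2, g3, g4, g5, g6, g7⟩ := rp_conv_aux hle hβ' h1 h2 h3 hβ hm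
  refine ⟨j, δ, g1, g2, τ'.map (· + 1), γ'.map (· + 1), ?_, g5, ?_, ?_, ?_, fun _ => ⟨?_, ?_⟩,
    fun h => absurd (hmd.symm.trans h) (by decide)⟩
  · rw [g3, Multiset.map_add]
  · rw [Multiset.card_map]
    exact g4
  · show cg (v.c + 1) (τ'.map (· + 1)) + 0 ≤ v.m - 1
    have := cg_le_card (v.c + 1) (τ'.map (· + 1))
    rw [Multiset.card_map] at this
    omega
  · rw [Multiset.card_map]
    exact g6
  · show cg (v.d + 1 + 1) (γ'.map (· + 1)) ≤ v.p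
    rw [cg_map_succ]
    rcases g7 with rfl | rfl
    · exact h6
    · rw [cg_cons] at h6
      omega
  · show ex (v.d + 1 + 1) (γ'.map (· + 1)) ≤ v.X
    rw [ex_succ_map_succ]
    rcases g7 with rfl | rfl
    · exact h7
    · rw [ex_cons] at h7
      omega

/-- R9C: conversion, mode A, `d = f`, no survivor above -/
theorem rp_conv_C (h : Rp f v β) (hmd : v.md = true) (hX : v.X = 0) (hp : v.p = 0) (hβ : β ≠ 0)
    (hm : 1 ≤ v.m) : ∃ j γ, β = j ::ₘ γ ∧ j ≤ v.c ∧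
      Rp f { v with c := v.c + 1, m := v.m - 1, z := 0, p := v.n } (γ.map (· + 1)) := by
  obtain ⟨τ, γ, hβ', hle, h1, h2, h3, h4, h5⟩ := rp_iff.1 h
  obtain ⟨h6, h7⟩ := h4 hmd
  have h8 := cg_eq_zero.1 (by omega : cg (v.d + 1) γ = 0)
  obtain ⟨j, δ, τ', γ', g1, g2, g3, g4, g5, g6, g7⟩ := rp_conv_aux hle hβ' h1 h2 h3 hβ hm
  refine ⟨j, δ, g1, g2, τ'.map (· + 1), γ'.map (· + 1), ?_, g5, ?_, ?_, ?_, fun _ => ⟨?_, ?_⟩,
    fun h => absurd (hmd.symm.trans h) (by decide)⟩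
  · rw [g3, Multiset.map_add]
  · rw [Multiset.card_map]
    exact g4
  · show cg (v.c + 1) (τ'.map (· + 1)) + 0 ≤ v.m - 1
    have := cg_le_card (v.c + 1) (τ'.map (· + 1))
    rw [Multiset.card_map] at this
    omega
  · rw [Multiset.card_map]
    exact g6
  · show cg (v.d + 1) (γ'.map (· + 1)) ≤ v.n
    have := cg_le_card (v.d + 1) (γ'.map (· + 1))
    rw [Multiset.card_map] at this
    omega
  · show ex (v.d + 1) (γ'.map (· + 1)) ≤ v.X
    rw [ex_succ_map_succ]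
    have : ex v.d γ' = 0 := ex_eq_zero.2 fun i hi => by
      rcases g7 with rfl | rfl
      · exact Nat.lt_succ_iff.1 (h8 i hi)
      · exact Nat.lt_succ_iff.1 (h8 i (Multiset.mem_cons_of_mem hi))
    omega

/-- R9H: conversion, mode H -/
theorem rp_conv_H (h : Rp f v β) (hmd : v.md = false) (hX : v.X = 0) (hβ : β ≠ 0)
    (hm : 1 ≤ v.m) : ∃ j γ, β = j ::ₘ γ ∧ j ≤ v.c ∧
      Rp f { v with c := v.c + 1, m := v.m - 1, z := 0 } (γ.map (· + 1)) := by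
  obtain ⟨τ, γ, hβ', hle, h1, h2, h3, h4, h5⟩ := rp_iff.1 h
  have h6 := h5 hmd
  obtain ⟨j, δ, τ', γ', g1, g2, g3, g4, g5, g6, g7⟩ := rp_conv_aux hle hβ' h1 h2 h3 hβ hm
  refine ⟨j, δ, g1, g2, τ'.map (· + 1), γ'.map (· + 1), ?_, g5, ?_, ?_, ?_,
    fun h => absurd (hmd.symm.trans h) (by decide), fun _ => ?_⟩
  · rw [g3, Multiset.map_add]
  · rw [Multiset.card_map]
    exact g4
  · show cg (v.c + 1) (τ'.map (· + 1)) + 0 ≤ v.m - 1
    have := cg_le_card (v.c + 1) (τ'.map (· + 1))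
    rw [Multiset.card_map] at this
    omega
  · rw [Multiset.card_map]
    exact g6
  · show exs (v.m - 1) f (γ'.map (· + 1)) ≤ v.X
    rw [exs_map_succ, show v.m - 1 + 1 = v.m by omega]
    rcases g7 with rfl | rfl
    · exact h6
    · rw [exs_cons] at h6
      omega

/-- R10: an element is removed -/
theorem rp_del {j : ℕ} (h : Rp f v (j ::ₘ β)) : Rp f v β := by
  obtain ⟨τ, γ, hβ, hle, h1, h2, h3, h4, h5⟩ := rp_iff.1 h
  have hle' : ∀ i ∈ β, i ≤ v.c := fun i hi => hle i (Multiset.mem_cons_of_mem hi)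
  have hj : j ∈ τ + γ := by
    rw [← hβ]
    exact Multiset.mem_cons_self _ _
  rcases Multiset.mem_add.1 hj with h | h
  · obtain ⟨τ0, rfl⟩ := Multiset.exists_cons_of_mem h
    rw [Multiset.cons_add, Multiset.cons_inj_right] at hβ
    rw [Multiset.card_cons] at h1
    rw [cg_cons] at h2
    exact ⟨τ0, γ, hβ, hle', by omega, by rw [cg_def]; omega, h3, h4, h5⟩
  · obtain ⟨γ0, rfl⟩ := Multiset.exists_cons_of_mem h
    rw [Multiset.add_cons, Multiset.cons_inj_right] at hβ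
    rw [Multiset.card_cons] at h3
    refine ⟨τ, γ0, hβ, hle', h1, h2, by omega, fun hmd => ?_, fun hmd => ?_⟩
    · obtain ⟨h6, h7⟩ := h4 hmd
      rw [cg_cons] at h6
      rw [ex_cons] at h7
      exact ⟨by rw [cg_def]; omega, by omega⟩
    · have h6 := h5 hmd
      rw [exs_cons] at h6
      omega

/-- R11: mode A becomes mode H, nothing to pay -/
theorem rp_AH (h : Rp f v β) (hmd : v.md = true) (hp : v.p = 0) (hdm : v.d + v.m = f) :
    Rp f { v with md := false } β := by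
  obtain ⟨τ, γ, hβ, hle, h1, h2, h3, h4, h5⟩ := rp_iff.1 h
  obtain ⟨h6, h7⟩ := h4 hmd
  have h8 := cg_eq_zero.1 (by omega : cg (v.d + 1) γ = 0)
  refine ⟨τ, γ, hβ, hle, h1, h2, h3, fun h => (Bool.false_ne_true h).elim, fun _ => ?_⟩
  show exs v.m f γ ≤ v.X
  rw [exs_eq_ex (by omega), show f - v.m = v.d by omega]
  have : ex v.d γ = 0 := ex_eq_zero.2 fun i hi => Nat.lt_succ_iff.1 (h8 i hi)
  omega

/-- R12: weakening -/
theorem rp_mono {v' : Vd} (h : Rp f v β) (hm : v'.m = v.m) (hc : v'.c = v.c) (hz : v'.z ≤ v.z)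
    (hn : v.n ≤ v'.n) (hd : v'.d = v.d) (hp : v.p ≤ v'.p) (hX : v.X ≤ v'.X)
    (hmd : v'.md = v.md) : Rp f v' β := by
  obtain ⟨τ, γ, hβ, hle, h1, h2, h3, h4, h5⟩ := rp_iff.1 h
  refine rp_iff.2 ⟨τ, γ, hβ, ?_, ?_, ?_, ?_, ?_, ?_⟩
  · rw [hc]
    exact hle
  · rw [hm]
    exact h1
  · rw [hm, hc]
    omega
  · omega
  · rw [hmd, hd]
    intro h
    obtain ⟨h6, h7⟩ := h4 h
    exact ⟨by omega, by omega⟩
  · rw [hmd, hm]
    intro h
    have := h5 h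
    omega

/-- R13: `k` units are paid to the survivors -/
theorem rp_surv (h : Rp f v β) (hmd : v.md = true) (hX : v.X = 0) (hpn : v.p ≤ v.n)
    (hpc : v.p = 0 ∨ v.d + 1 ≤ v.c) (hdc : v.d ≤ v.c) (hn : 1 ≤ v.n) (hf : f ≤ v.d + v.m)
    (k : ℕ) (hk : k ≤ v.n * v.d + v.p) (hk2 : k + v.n * f ≤ v.n * (v.d + v.m) + v.p) :
    ∃ d' p' β' k', Lw β β' k' ∧ k' ≤ k ∧ v.n * d' + p' + k = v.n * v.d + v.p ∧ d' ≤ v.d ∧
      p' ≤ v.n ∧ (p' = 0 ∨ d' + 1 ≤ v.c) ∧ f ≤ d' + v.m ∧ (d' = v.d → p' ≤ v.p) ∧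
      Rp f { v with d := d', p := p', X := 0 } β' := by
  induction k with
  | zero =>
    refine ⟨v.d, v.p, β, 0, Lw.refl _, le_rfl, rfl, le_rfl, hpn, hpc, hf, fun _ => le_rfl, ?_⟩
    exact rp_mono h rfl rfl le_rfl le_rfl rfl le_rfl hX.le rfl
  | succ k ih =>
    obtain ⟨d', p', β', k', g1, g2, g3, g4, g5, g6, g7, g8, g9⟩ := ih (by omega) (by omega)
    rcases Nat.eq_zero_or_pos p' with hp' | hp'
    · subst hp'
      obtain ⟨e, rfl⟩ : ∃ e, d' = e + 1 := by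
        refine ⟨d' - 1, ?_⟩
        rcases Nat.eq_zero_or_pos d' with h0 | h0
        · rw [h0, Nat.mul_zero] at g3
          omega
        · omega
      have hfe : f ≤ e + v.m := by
        by_contra hcon
        have h1 : v.n * (e + 1 + v.m) ≤ v.n * f := Nat.mul_le_mul_left _ (by omega)
        rw [Nat.mul_add] at h1 hk2
        omega
      have h2 := rp_base (v := { v with d := e + 1, p := 0, X := 0 }) g9 hmd rfl
        (Nat.succ_le_succ (Nat.zero_le e))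
      obtain ⟨β'', k'', g10, g11, g12⟩ := rp_p_one h2 hmd rfl hn
      refine ⟨e, v.n - 1, β'', k' + k'', g1.trans g10, by omega, ?_, by omega, by omega,
        Or.inr (by omega), hfe, fun h => by omega, g12⟩
      rw [Nat.mul_succ] at g3
      omega
    · obtain ⟨β'', k'', g10, g11, g12⟩ := rp_p_one g9 hmd rfl hp'
      exact ⟨d', p' - 1, β'', k' + k'', g1.trans g10, by omega, by omega, g4, by omega,
        Or.inr (g6.resolve_left (by omega)), g7, fun h => by have := g8 h; omega, g12⟩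

end Pool.Agent.OCN.YC
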