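import Pool.Agent.Lib_helper68.OCN.YcJ0
import Pool.Agent.Lib_helper92.OCN.YcJR

/-!
# MP_aeb124_co: number game, block T4: a window start is processed, a virtual level is removed
-/

set_option autoImplicit false

namespace Pool.Agent.OCN.YC

/-! ### pure inequalities -/

theorem T4_numH {f c m X' : ℤ} (hf : 0 ≤ f) (hc : 0 ≤ c) (hm : 1 ≤ m) (hcm : c ≤ f + m)
    (hX : X' ≤ max 0 (c + m - f - 1)) :
    pS f (m - 1) c 0 X' + pH f (m - 1) c + (8 * min (max 0 (c - m)) f + 64) ≤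
      pS f m c 0 0 + pH f m c := by
  unfold pS pH
  have h1 : max 0 (c - f - m) = 0 := max_eq_left (by linarith)
  have h2 : (max 0 (c - f - (m - 1))) ^ 2 ≤ 1 := by
    have h3 : max 0 (c - f - (m - 1)) ≤ 1 := max_le (by norm_num) (by linarith)
    have h4 := le_max_left 0 (c - f - (m - 1))
    nlinarith
  have h5 : min (max 0 (c - m)) f ≤ f := min_le_right _ _
  have h6 : min (max 0 (c - m)) f ≤ max 0 (c - m) := min_le_left _ _
  rw [h1]
  rcases le_or_gt (c + m - f) 0 with h | h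
  · rw [max_eq_left (by linarith : c + m - f - 1 ≤ 0)] at hX
    rw [max_eq_left h, max_eq_left (by linarith : c + (m - 1) - f ≤ 0)]
    have h2' : max 0 (c - f - (m - 1)) = 0 := max_eq_left (by linarith)
    rw [h2']
    have h7 : (max 0 (m - 1 - c)) ^ 2 ≤ (max 0 (m - c)) ^ 2 :=
      pow_le_pow_left₀ (le_max_left _ _) (max_le_max le_rfl (by linarith)) 2
    have h8 : max 0 (c - m) ≤ c := max_le hc (by linarith)
    nlinarith
  · rw [max_eq_right (by linarith : 0 ≤ c + m - f - 1)] at hX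
    rw [max_eq_right h.le, max_eq_right (by linarith : 0 ≤ c + (m - 1) - f)]
    rcases le_or_gt (m - c) 0 with h' | h'
    · rw [max_eq_left h', max_eq_left (by linarith : m - 1 - c ≤ 0)]
      rw [max_eq_right (by linarith : 0 ≤ c - m)] at h5 h6 ⊢
      nlinarith
    · have h2' : max 0 (c - f - (m - 1)) = 0 := max_eq_left (by linarith)
      rw [h2', max_eq_right h'.le, max_eq_right (by linarith : 0 ≤ m - 1 - c)]
      rw [max_eq_left (by linarith : c - m ≤ 0)] at h5 h6 ⊢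
      nlinarith

theorem T4_numA {f c m X' n d p p' K : ℤ} (hK : 0 ≤ K) (hf : 0 ≤ f) (hm : f + 1 ≤ d + m)
    (hdc : d ≤ c) (hdf : d ≤ f) (hX : X' ≤ max 0 (c - (d + 1))) (hp : p' ≤ p + 1)
    (hn : 3 * f + c + m + 4 * K + 100 ≤ 2 * n) :
    pS f (m - 1) c 0 X' + pA f (m - 1) (n + 1) d p' + (8 * f + 64) ≤
      pS f m c 0 0 + pA f m n d p := by
  unfold pS pA
  rw [max_eq_right (by linarith : 0 ≤ c + m - f), max_eq_right (by linarith : 0 ≤ c + (m - 1) - f)]
  rcases le_or_gt (c - (d + 1)) 0 with h | h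
  · rw [max_eq_left h] at hX
    nlinarith
  · rw [max_eq_right h.le] at hX
    nlinarith

theorem T4_numP {f c m X' o : ℤ} (hX : X' ≤ c) :
    pP f (m - 1) c 0 X' o ≤ pP f m c 0 0 o + 8 * m - 4 + 8 * min c f := by
  unfold pP
  have h3 : min c f + max 0 (c - f) = c := by
    rcases le_total c f with h | h
    · rw [min_eq_left h, max_eq_left (by linarith)]
      ring
    · rw [min_eq_right h, max_eq_right (by linarith)]
      ring
  nlinarith

/-! ### the base elements -/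

variable {P : Par} {v : Vd} {o u μ : ℕ} {β : Multiset ℕ}

/-- a top becomes a survivor -/
theorem T4_ex (h : Sn P o u μ β v) (hm : 1 ≤ v.m) (hX : v.X = 0) (hz : v.z = 0) :
    ∃ (p' X' : ℕ) (md' : Bool),
      RpR P.f (v.m - 1) v.c 0 (v.n + 1) v.d p' X' md' β ∧ X' ≤ v.c ∧ X' ≤ v.c + v.m - (P.f + 1) ∧
      p' ≤ v.p + 1 ∧ v.p ≤ p' ∧
      (md' = true → v.md = true ∧ P.f + 1 ≤ v.d + v.m ∧ X' ≤ v.c - (v.d + 1) ∧
        (p' = 0 ∨ v.d + 1 ≤ v.c)) ∧
      (md' = false → v.m ≤ P.f) := by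
  have hzm : v.z ≤ v.m := h.hz
  have ez : min v.z (v.m - 1) = 0 := by rw [hz]; exact Nat.zero_min _
  rcases hmd : v.md with _ | _
  · have h1 := rp_iff.1 (rp_F_H h.hR hmd hm hzm)
    have h2 := h.hH hmd
    refine ⟨v.p, v.X + (v.c + v.m - (P.f + 1)), false, ?_, by omega, by omega, by omega, le_rfl,
      fun h => (Bool.false_ne_true h).elim, fun _ => h2⟩
    have h3 : RpR P.f (v.m - 1) v.c (min v.z (v.m - 1)) (v.n + 1) v.d v.p
        (v.X + (v.c + v.m - (P.f + 1))) v.md β := h1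
    rwa [ez, hmd] at h3
  · obtain ⟨a1, a2, a3, a4, a5⟩ := h.hA hmd
    by_cases hdm : v.d + v.m = P.f
    · have h1 := rp_iff.1 (rp_F_AH h.hR hmd hm hzm hdm)
      have h3 : RpR P.f (v.m - 1) v.c (min v.z (v.m - 1)) (v.n + 1) v.d v.p
          (v.X + (v.c - (v.d + 1))) false β := h1
      rw [ez] at h3
      exact ⟨v.p, v.X + (v.c - (v.d + 1)), false, h3, by omega, by omega, by omega, le_rfl,
        fun h => (Bool.false_ne_true h).elim, fun _ => by omega⟩
    · have h1 := rp_iff.1 (rp_F_A h.hR hmd hm hzm)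
      have h3 : RpR P.f (v.m - 1) v.c (min v.z (v.m - 1)) (v.n + 1) v.d
          (if v.d + 1 ≤ v.c then v.p + 1 else v.p) (v.X + (v.c - (v.d + 1))) v.md β := h1
      rw [ez, hmd] at h3
      refine ⟨_, _, true, h3, by omega, by omega, ?_, ?_, fun _ => ⟨rfl, by omega, by omega, ?_⟩,
        fun h => absurd h (by decide)⟩
      · split_ifs <;> omega
      · split_ifs <;> omega
      · split_ifs with h4
        · exact Or.inr h4
        · left
          omega

theorem T4_sn (h : Sn P o u μ β v) (hm : 1 ≤ v.m) {E' w' p' X' : ℕ} {md' : Bool}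
    (h1 : RpR P.f (v.m - 1) v.c 0 (v.n + 1) v.d p' X' md' β)
    (h3 : p' ≤ v.p + 1)
    (h5 : md' = true → v.md = true ∧ P.f + 1 ≤ v.d + v.m ∧ X' ≤ v.c - (v.d + 1) ∧
        (p' = 0 ∨ v.d + 1 ≤ v.c))
    (h6 : md' = false → v.m ≤ P.f) (hE1 : μ ≤ E') (hE2 : P.W ≤ u + E')
    (hEw : v.m - 1 + μ = E' + w') (hw : w' ≤ P.K) (hs : E' + w' + 1 = v.E + v.w) :
    Sn P o u μ β { v with E := E', w := w', m := v.m - 1, z := 0, n := v.n + 1, p := p', X := X',
                          md := md' } where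
  hf := h.hf
  hnl := h.hnl
  hm := hEw
  hμ := hE1
  hw := hw
  hz := Nat.zero_le _
  hz0 := Or.inl rfl
  hA := by
    intro hmd
    obtain ⟨k1, k2, k3, k4⟩ := h5 hmd
    obtain ⟨a1, a2, a3, a4, a5⟩ := h.hA k1
    refine ⟨a1, a2, ?_, ?_, k4⟩
    · show P.f ≤ v.d + (v.m - 1)
      omega
    · show p' ≤ v.n + 1
      omega
  hH := by
    intro hmd
    have := h6 hmd
    show v.m - 1 ≤ P.f
    omega
  hn := by
    have := h.hn
    show 3 * P.f + v.c + (v.m - 1) + 4 * P.K + 100 ≤ 2 * (v.n + 1)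
    omega
  hN := by
    have := h.hN
    show v.n + 1 + w' + E' + o ≤ 4 * P.Q
    omega
  ho := h.ho
  hE := hE2
  hW := h.hW
  hR := h1

theorem T4_nd (need : ℤ) {v v' : Vd} (h : v.n * v.d + v.p ≤ v'.n * v'.d + v'.p) :
    nd v' need ≤ nd v need := by
  unfold nd
  have h' : (v.n : ℤ) * v.d + v.p ≤ (v'.n : ℤ) * v'.d + v'.p := by exact_mod_cast h
  have := max_le_max (le_refl (0 : ℤ))
    (by linarith : need - ((v'.n : ℤ) * v'.d + v'.p) ≤ need - ((v.n : ℤ) * v.d + v.p))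
  linarith

theorem T4_al_le (f : ℕ) (v : Vd) :
    al f v ≤ 8 * min (max 0 ((v.c : ℤ) - v.m)) (f : ℤ) + 64 := by
  unfold al
  split_ifs
  · have : 0 ≤ min (max 0 ((v.c : ℤ) - v.m)) (f : ℤ) :=
      le_min (le_max_left _ _) (Int.natCast_nonneg _)
    linarith
  · exact le_rfl

theorem T4_al_nonneg (f : ℕ) (v : Vd) : 0 ≤ al f v := by
  unfold al
  split_ifs
  · exact le_rfl
  · have : 0 ≤ min (max 0 ((v.c : ℤ) - v.m)) (f : ℤ) :=
      le_min (le_max_left _ _) (Int.natCast_nonneg _)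
    linarith

theorem T4_castX {c m f X' : ℕ} (h : X' ≤ c + m - (f + 1)) :
    (X' : ℤ) ≤ max 0 ((c : ℤ) + m - f - 1) := by
  rcases le_or_gt (f + 1) (c + m) with h1 | h1
  · rw [max_eq_right (by omega)]
    omega
  · have : X' = 0 := by omega
    rw [this]
    exact le_max_left _ _

theorem T4_castX2 {c d X' : ℕ} (h : X' ≤ c - (d + 1)) :
    (X' : ℤ) ≤ max 0 ((c : ℤ) - (d + 1)) := by
  rcases le_or_gt (d + 1) c with h1 | h1
  · rw [max_eq_right (by omega)]
    omega
  · have : X' = 0 := by omega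
    rw [this]
    exact le_max_left _ _

/-- a window start is processed -/
theorem st_w (h : Sn P o u μ β v) (hM : μ + 1 ≤ v.E) (hw : 1 ≤ v.w) (hX : v.X = 0) (hz : v.z = 0)
    (hc : v.c ≤ P.f + v.m) :
    ∃ v' : Vd, Sn P o u μ β v' ∧ v'.E = v.E ∧ v'.w + 1 = v.w ∧ v'.c = v.c ∧ v'.m + 1 = v.m ∧
      v'.X ≤ v.c ∧ (v'.md = true → v.md = true) ∧
      (∀ need : ℤ, v'.md = true → nd v' need ≤ nd v need) ∧
      (∀ ra : ℕ, Psi P o ra v + al P.f v ≤ Psi P o ra v' + al P.f v') ∧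
      (∀ ra : ℕ, v'.md = true → Vee P o ra v + al P.f v ≤ Vee P o ra v' + al P.f v') ∧
      ∀ ra : ℕ, Pee P o ra v + TP P o v' ≤ Pee P o ra v' + TP P o v := by
  have e1 := h.hm
  have e2 := h.hw
  have hm : 1 ≤ v.m := by omega
  obtain ⟨p', X', md', h1, h2, h3, h4, h5, h6, h7⟩ := T4_ex h hm hX hz
  have hSn := T4_sn (E' := v.E) (w' := v.w - 1) h hm h1 h4 h6 h7 h.hμ h.hE (by omega) (by omega)
    (by omega)
  obtain ⟨v', hv'⟩ : ∃ v' : Vd, v' = { v with E := v.E, w := v.w - 1, m := v.m - 1, z := 0,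
                                              n := v.n + 1, p := p', X := X', md := md' } := ⟨_, rfl⟩
  rw [← hv'] at hSn
  have q1 : v'.E = v.E := by rw [hv']
  have q2 : v'.w + 1 = v.w := by rw [hv']; show v.w - 1 + 1 = v.w; omega
  have q3 : v'.c = v.c := by rw [hv']
  have q4 : v'.m + 1 = v.m := by rw [hv']; show v.m - 1 + 1 = v.m; omega
  have q5 : v'.X = X' := by rw [hv']
  have q6 : v'.md = md' := by rw [hv']
  have q7 : v'.n = v.n + 1 := by rw [hv']
  have q8 : v'.d = v.d := by rw [hv']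
  have q9 : v'.p = p' := by rw [hv']
  have q10 : v'.z = 0 := by rw [hv']
  clear hv'
  have c4 : (v'.m : ℤ) = v.m - 1 := by omega
  have c2 : (v'.w : ℤ) = v.w - 1 := by omega
  have c7 : (v'.n : ℤ) = v.n + 1 := by omega
  have al1 := T4_al_le P.f v
  have al2 := T4_al_nonneg P.f v'
  refine ⟨v', hSn, q1, q2, q3, q4, by rw [q5]; exact h2, fun hmd => ?_, fun need hmd => ?_,
    fun ra => ?_, fun ra hmd => ?_, fun ra => ?_⟩
  · rw [q6] at hmd
    exact (h6 hmd).1
  · refine T4_nd need ?_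
    rw [q7, q8, q9]
    have : v.n * v.d ≤ (v.n + 1) * v.d := Nat.mul_le_mul_right _ (Nat.le_succ _)
    omega
  · have key := T4_numH (f := P.f) (c := v.c) (m := v.m) (X' := X') (by omega) (by omega)
      (by omega) (by omega) (T4_castX h3)
    unfold Psi
    rw [q1, q3, q5, q10, c4, hX, hz]
    push_cast
    linarith
  · rw [q6] at hmd
    obtain ⟨k1, k2, k3, k4⟩ := h6 hmd
    obtain ⟨a1, a2, a3, a4, a5⟩ := h.hA k1
    have hn := h.hn
    have key := T4_numA (K := P.K) (f := P.f) (c := v.c) (m := v.m) (X' := X') (n := v.n) (d := v.d)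
      (p := v.p) (p' := p') (by omega) (by omega) (by omega) (by omega) (by omega) (T4_castX2 k3)
      (by omega) (by omega)
    have al3 : 8 * min (max 0 ((v.c : ℤ) - v.m)) (P.f : ℤ) ≤ 8 * P.f :=
      mul_le_mul_of_nonneg_left (min_le_right _ _) (by norm_num)
    unfold Vee
    rw [q1, q3, q5, q7, q8, q9, q10, c4, hX, hz]
    push_cast
    linarith
  · have key := T4_numP (f := P.f) (c := v.c) (m := v.m) (X' := X') (o := o) (by omega)
    have hw' : (1 : ℤ) ≤ v.w := by omega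
    unfold Pee TP
    rw [q1, q3, q5, q10, c4, c2, hX, hz]
    push_cast
    nlinarith

/-- a virtual level is removed -/
theorem st_v (h : Sn P o u μ β v) (hM : μ + 1 ≤ v.E) (hw : v.w = 0) (hX : v.X = 0) (hz : v.z = 0)
    (hc : v.c ≤ P.f + v.m) (hW : P.W + 1 ≤ u + v.E) (hcm : v.c + v.m ≤ o) :
    ∃ v' : Vd, Sn P o u μ β v' ∧ v'.E + 1 = v.E ∧ v'.w = 0 ∧ v'.c = v.c ∧ v'.m + 1 = v.m ∧
      v'.X ≤ v.c ∧ (v'.md = true → v.md = true) ∧
      (∀ need : ℤ, v'.md = true → nd v' need ≤ nd v need) ∧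
      (∀ ra : ℕ, Psi P o ra v + 8 * (o : ℤ) ≤ Psi P o ra v') ∧
      (∀ ra : ℕ, v'.md = true → Vee P o ra v + 8 * (o : ℤ) ≤ Vee P o ra v') ∧
      ∀ ra : ℕ, Pee P o ra v + TP P o v' ≤ Pee P o ra v' + TP P o v + 8 := by
  have e1 := h.hm
  have hm : 1 ≤ v.m := by omega
  obtain ⟨p', X', md', h1, h2, h3, h4, h5, h6, h7⟩ := T4_ex h hm hX hz
  have hSn := T4_sn (E' := v.E - 1) (w' := 0) h hm h1 h4 h6 h7 (by omega) (by omega) (by omega)
    (Nat.zero_le _) (by omega)
  obtain ⟨v', hv'⟩ : ∃ v' : Vd, v' = { v with E := v.E - 1, w := 0, m := v.m - 1, z := 0,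
                                              n := v.n + 1, p := p', X := X', md := md' } := ⟨_, rfl⟩
  rw [← hv'] at hSn
  have q1 : v'.E + 1 = v.E := by rw [hv']; show v.E - 1 + 1 = v.E; omega
  have q2 : v'.w = 0 := by rw [hv']
  have q3 : v'.c = v.c := by rw [hv']
  have q4 : v'.m + 1 = v.m := by rw [hv']; show v.m - 1 + 1 = v.m; omega
  have q5 : v'.X = X' := by rw [hv']
  have q6 : v'.md = md' := by rw [hv']
  have q7 : v'.n = v.n + 1 := by rw [hv']
  have q8 : v'.d = v.d := by rw [hv']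
  have q9 : v'.p = p' := by rw [hv']
  have q10 : v'.z = 0 := by rw [hv']
  clear hv'
  have c1 : (v'.E : ℤ) = v.E - 1 := by omega
  have c4 : (v'.m : ℤ) = v.m - 1 := by omega
  have c7 : (v'.n : ℤ) = v.n + 1 := by omega
  have eQ : ∀ ra : ℕ, pQ o (v.E - 1) ra = pQ o v.E ra + 8 * o := fun ra => by unfold pQ; ring
  refine ⟨v', hSn, q1, q2, q3, q4, by rw [q5]; exact h2, fun hmd => ?_, fun need hmd => ?_,
    fun ra => ?_, fun ra hmd => ?_, fun ra => ?_⟩
  · rw [q6] at hmd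
    exact (h6 hmd).1
  · refine T4_nd need ?_
    rw [q7, q8, q9]
    have : v.n * v.d ≤ (v.n + 1) * v.d := Nat.mul_le_mul_right _ (Nat.le_succ _)
    omega
  · have key := T4_numH (f := P.f) (c := v.c) (m := v.m) (X' := X') (by omega) (by omega)
      (by omega) (by omega) (T4_castX h3)
    have al3 : 0 ≤ min (max 0 ((v.c : ℤ) - v.m)) (P.f : ℤ) :=
      le_min (le_max_left _ _) (Int.natCast_nonneg _)
    unfold Psi
    rw [c1, eQ, q3, q5, q10, c4, hX, hz]
    push_cast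
    linarith
  · rw [q6] at hmd
    obtain ⟨k1, k2, k3, k4⟩ := h6 hmd
    obtain ⟨a1, a2, a3, a4, a5⟩ := h.hA k1
    have hn := h.hn
    have key := T4_numA (K := P.K) (f := P.f) (c := v.c) (m := v.m) (X' := X') (n := v.n) (d := v.d)
      (p := v.p) (p' := p') (by omega) (by omega) (by omega) (by omega) (by omega) (T4_castX2 k3)
      (by omega) (by omega)
    have hf0 : (0 : ℤ) ≤ P.f := Int.natCast_nonneg _
    unfold Vee
    rw [c1, eQ, q3, q5, q7, q8, q9, q10, c4, hX, hz]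
    push_cast
    linarith
  · have key := T4_numP (f := P.f) (c := v.c) (m := v.m) (X' := X') (o := o) (by omega)
    have h8 : min (v.c : ℤ) P.f ≤ v.c := min_le_left _ _
    have h9 : (v.c : ℤ) + v.m ≤ o := by exact_mod_cast hcm
    unfold Pee TP
    rw [c1, eQ, q2, q3, q5, q10, c4, hw, hX, hz]
    push_cast
    linarith

end Pool.Agent.OCN.YC
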