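import Pool.Agent.Lib_helper16.OCN.YcJT
import Pool.Agent.Lib_helper92.OCN.YcJR

/-!
# MP_aeb124_co: number game, closed payment, first part: the excess and the tops
-/

set_option autoImplicit false

namespace Pool.Agent.OCN.YC

variable {P : Par}

theorem C1_good {σ σ' : St} {I I' c : ℕ} (h : Pays σ σ' c) (hc : c + I' ≤ I)
    (hg : Good P σ' I') : Good P σ I := by
  obtain ⟨σ'', c', h1, h2, h3⟩ := hg
  exact ⟨σ'', c + c', h.trans h1, by omega, h3⟩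

/-- no money is left -/
theorem C1_zero {o r u μ ν cb : ℕ} {β : Multiset ℕ} {I : ℕ} {v : Vd}
    (h : JC P ⟨o, 0, r, u, μ, ν, cb, β⟩ 0 v) (hM : μ + 1 ≤ v.E) :
    Good P ⟨o, 0, r, u, μ, ν, cb, β⟩ I := by
  refine ⟨⟨o, 0, 0, u, μ, ν, cb, β⟩, 0, Pays.single (Pay.nrm o r u μ ν cb ν cb β), Nat.zero_le _,
    Or.inl (Or.inl ⟨v, ?_, rfl, hM⟩)⟩
  exact ⟨h.sn, rfl, h.hI, h.y, h.yi, h.ps, h.pv, h.pp⟩

theorem C1_nd_mono (v : Vd) {x y : ℤ} (h : x ≤ y) : nd v x ≤ nd v y := by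
  unfold nd
  have h1 : max 0 (x - ((v.n : ℤ) * v.d + v.p)) ≤ max 0 (y - ((v.n : ℤ) * v.d + v.p)) :=
    max_le_max le_rfl (by linarith)
  linarith

/-- `k` units of the excess are paid -/
theorem C1_X {o r u μ ν cb : ℕ} {β : Multiset ℕ} {I : ℕ} {v : Vd}
    (h : JC P ⟨o, 0, r, u, μ, ν, cb, β⟩ I v) (k : ℕ) (hk : k ≤ v.X) (hkI : k ≤ I) :
    ∃ β' k', Lw β β' k' ∧ k' ≤ k ∧
      JC P ⟨o, 0, r, u, μ, ν, cb, β'⟩ (I - k) { v with X := v.X - k } := by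
  have sn : Sn P o u μ β v := h.sn
  obtain ⟨β', k', h1, h2, h3⟩ := rp_X sn.hR sn.hH k hk
  have hI : I ≤ o + 1 := h.hI
  have yi : (v.c + 1) * (v.c - (P.f + v.m)) + v.X ≤ 12 * (v.c + 1) + I := h.yi
  have ps : T4 P o ≤ Psi P o 0 v + 8 * I + al P.f v := h.ps
  have pv : v.md = true → T4 P o + nd v (v.c + P.K + 20) ≤ Vee P o 0 v + 8 * I + al P.f v := h.pv
  have pp : 1 ≤ μ ∨ v.E = 0 → TP P o v ≤ Pee P o 0 v + 8 * I := h.pp
  have ek : ((v.X - k : ℕ) : ℤ) = v.X - k := by omega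
  have eI : ((I - k : ℕ) : ℤ) = I - k := by omega
  refine ⟨β', k', h1, h2, ?_, rfl, ?_, h.y, ?_, ?_, fun hmd => ?_, fun hp => ?_⟩
  · have hW := sn.hW
    rw [← h1.card] at hW
    exact ⟨sn.hf, sn.hnl, sn.hm, sn.hμ, sn.hw, sn.hz, sn.hz0, sn.hA, sn.hH, sn.hn, sn.hN, sn.ho,
      sn.hE, hW, h3⟩
  · show I - k ≤ o + 1
    omega
  · show (v.c + 1) * (v.c - (P.f + v.m)) + (v.X - k) ≤ 12 * (v.c + 1) + (I - k)
    omega
  · show T4 P o ≤ pQ o v.E (0 : ℕ) - pS P.f v.m v.c v.z (v.X - k : ℕ) - pH P.f v.m v.c +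
      8 * ((I - k : ℕ) : ℤ) + al P.f v
    have e2 : pS P.f v.m v.c v.z (v.X - k : ℕ) = pS P.f v.m v.c v.z v.X - 8 * k := by
      rw [ek]; unfold pS; ring
    rw [e2, eI]
    unfold Psi at ps
    linarith
  · show T4 P o + nd v (v.c + P.K + 20) ≤ pQ o v.E (0 : ℕ) -
      pS P.f v.m v.c v.z (v.X - k : ℕ) - pA P.f v.m v.n v.d v.p + 8 * ((I - k : ℕ) : ℤ) + al P.f v
    have e2 : pS P.f v.m v.c v.z (v.X - k : ℕ) = pS P.f v.m v.c v.z v.X - 8 * k := by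
      rw [ek]; unfold pS; ring
    rw [e2, eI]
    have := pv hmd
    unfold Vee at this
    linarith
  · show TP P o v ≤ pQ o v.E (0 : ℕ) - pP P.f v.m v.c v.z (v.X - k : ℕ) o +
      8 * ((I - k : ℕ) : ℤ)
    have e2 : pP P.f v.m v.c v.z (v.X - k : ℕ) o = pP P.f v.m v.c v.z v.X o - 8 * k := by
      rw [ek]; unfold pP; ring
    rw [e2, eI]
    have := pp hp
    unfold Pee at this
    linarith

/-- `JC` without the field `yi` -/
structure C1J (P : Par) (o u μ : ℕ) (β : Multiset ℕ) (I : ℕ) (v : Vd) : Prop where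
  sn : Sn P o u μ β v
  hI : I ≤ o + 1
  y : v.c ≤ P.f + v.m + 13
  ps : T4 P o ≤ Psi P o 0 v + 8 * I + al P.f v
  pv : v.md = true → T4 P o + nd v (v.c + P.K + 20) ≤ Vee P o 0 v + 8 * I + al P.f v
  pp : 1 ≤ μ ∨ v.E = 0 → TP P o v ≤ Pee P o 0 v + 8 * I

theorem C1J.jc {o r u μ ν cb : ℕ} {β : Multiset ℕ} {I : ℕ} {v : Vd} (h : C1J P o u μ β I v)
    (yi : (v.c + 1) * (v.c - (P.f + v.m)) + v.X ≤ 12 * (v.c + 1) + I) :
    JC P ⟨o, 0, r, u, μ, ν, cb, β⟩ I v :=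
  ⟨h.sn, rfl, h.hI, h.y, yi, h.ps, h.pv, h.pp⟩

theorem C1_of {o r u μ ν cb : ℕ} {β : Multiset ℕ} {I : ℕ} {v : Vd}
    (h : JC P ⟨o, 0, r, u, μ, ν, cb, β⟩ I v) : C1J P o u μ β I v :=
  ⟨h.sn, h.hI, h.y, h.ps, h.pv, h.pp⟩

/-- `k` tops are lowered -/
theorem C1_z {o u μ : ℕ} {β : Multiset ℕ} {I : ℕ} {v : Vd}
    (h : C1J P o u μ β I v) (hc : P.f + v.m < v.c) (k : ℕ)
    (hk : v.z + k ≤ v.m) (hkI : k ≤ I) :
    ∃ β' k', Lw β β' k' ∧ k' ≤ k ∧ C1J P o u μ β' (I - k) { v with z := v.z + k } := by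
  obtain ⟨sn, hI, hyy, ps, pv, pp⟩ := h
  obtain ⟨β', k', h1, h2, h3⟩ := rp_z sn.hR (by omega) k hk
  have ek : ((v.z + k : ℕ) : ℤ) = v.z + k := by omega
  have eI : ((I - k : ℕ) : ℤ) = I - k := by omega
  refine ⟨β', k', h1, h2, ?_, ?_, hyy, ?_, fun hmd => ?_, fun hp => ?_⟩
  · have hW := sn.hW
    rw [← h1.card] at hW
    exact ⟨sn.hf, sn.hnl, sn.hm, sn.hμ, sn.hw, hk, Or.inr hc, sn.hA, sn.hH, sn.hn, sn.hN, sn.ho,
      sn.hE, hW, h3⟩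
  · omega
  · show T4 P o ≤ pQ o v.E (0 : ℕ) - pS P.f v.m v.c (v.z + k : ℕ) v.X - pH P.f v.m v.c +
      8 * ((I - k : ℕ) : ℤ) + al P.f v
    have e2 : pS P.f v.m v.c (v.z + k : ℕ) v.X = pS P.f v.m v.c v.z v.X - 8 * k := by
      rw [ek]; unfold pS; ring
    rw [e2, eI]
    unfold Psi at ps
    linarith
  · show T4 P o + nd v (v.c + P.K + 20) ≤ pQ o v.E (0 : ℕ) -
      pS P.f v.m v.c (v.z + k : ℕ) v.X - pA P.f v.m v.n v.d v.p + 8 * ((I - k : ℕ) : ℤ) + al P.f v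
    have e2 : pS P.f v.m v.c (v.z + k : ℕ) v.X = pS P.f v.m v.c v.z v.X - 8 * k := by
      rw [ek]; unfold pS; ring
    rw [e2, eI]
    have := pv hmd
    unfold Vee at this
    linarith
  · show TP P o v ≤ pQ o v.E (0 : ℕ) - pP P.f v.m v.c (v.z + k : ℕ) v.X o +
      8 * ((I - k : ℕ) : ℤ)
    have e2 : pP P.f v.m v.c (v.z + k : ℕ) v.X o = pP P.f v.m v.c v.z v.X o - 8 * k := by
      rw [ek]; unfold pP; ring
    rw [e2, eI]
    have := pp hp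
    unfold Pee at this
    linarith

/-- all the tops are on the level `c - 1` -/
theorem C1_down {o r u μ ν cb : ℕ} {β : Multiset ℕ} {I : ℕ} {v : Vd}
    (h : C1J P o u μ β I v) (hM : μ + 1 ≤ v.E) (hX : v.X = 0)
    (hc : P.f + v.m < v.c) (hz : v.m ≤ v.z) :
    JC P ⟨o, 0, r, u, μ, ν, cb, β⟩ I { v with c := v.c - 1, z := 0 } := by
  obtain ⟨sn, hI, hyy, ps, pv, pp⟩ := h
  have hm := sn.hm
  obtain ⟨h1, h2, h3, h4, h5⟩ := st_down sn (by omega) hX hz hc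
  refine ⟨h1, rfl, hI, ?_, ?_, ?_, fun hmd => ?_, fun hp => ?_⟩
  · show v.c - 1 ≤ P.f + v.m + 13
    omega
  · show (v.c - 1 + 1) * (v.c - 1 - (P.f + v.m)) + v.X ≤ 12 * (v.c - 1 + 1) + I
    have h5 : (v.c - 1 + 1) * (v.c - 1 - (P.f + v.m)) ≤ (v.c - 1 + 1) * 12 :=
      Nat.mul_le_mul_left _ (by omega)
    omega
  · have := h3 0
    show T4 P o ≤ Psi P o 0 { v with c := v.c - 1, z := 0 } + 8 * I +
      al P.f { v with c := v.c - 1, z := 0 }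
    linarith
  · have k1 := h4 0
    have k2 := pv hmd
    have k3 : nd { v with c := v.c - 1, z := 0 } (((v.c - 1 : ℕ) : ℤ) + P.K + 20) ≤
        nd v (v.c + P.K + 20) := by
      rw [h2]
      exact C1_nd_mono v (by omega)
    show T4 P o + nd { v with c := v.c - 1, z := 0 } (((v.c - 1 : ℕ) : ℤ) + P.K + 20) ≤
      Vee P o 0 { v with c := v.c - 1, z := 0 } + 8 * I + al P.f { v with c := v.c - 1, z := 0 }
    linarith
  · have k1 := h5 0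
    have k2 := pp hp
    show TP P o { v with c := v.c - 1, z := 0 } ≤
      Pee P o 0 { v with c := v.c - 1, z := 0 } + 8 * I
    linarith

/-- the loop -/
theorem C1_loop {o r u μ ν cb : ℕ} (n : ℕ) : ∀ {β : Multiset ℕ} {I : ℕ} {v : Vd}
    (_ : JC P ⟨o, 0, r, u, μ, ν, cb, β⟩ I v) (_ : μ + 1 ≤ v.E) (_ : v.X = 0) (_ : v.c ≤ n),
    Good P ⟨o, 0, r, u, μ, ν, cb, β⟩ I ∨ ∃ (β' : Multiset ℕ) (I' : ℕ) (v' : Vd) (c : ℕ),
      Lw β β' c ∧ c + I' ≤ I ∧ JC P ⟨o, 0, r, u, μ, ν, cb, β'⟩ I' v' ∧ v'.E = v.E ∧ v'.w = v.w ∧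
      v'.m = v.m ∧ v'.X = 0 ∧ v'.z = 0 ∧ v'.c ≤ P.f + v'.m := by
  induction n with
  | zero =>
    intro β I v h hM hX hn
    have hz0 := h.sn.hz0
    exact Or.inr ⟨β, I, v, 0, Lw.refl β, by omega, h, rfl, rfl, rfl, hX, by omega, by omega⟩
  | succ n ih =>
    intro β I v h hM hX hn
    have hz0 := h.sn.hz0
    by_cases hc : v.c ≤ P.f + v.m
    · exact Or.inr ⟨β, I, v, 0, Lw.refl β, by omega, h, rfl, rfl, rfl, hX, by omega, hc⟩
    · have hc' : P.f + v.m < v.c := not_le.1 hc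
      have yi : (v.c + 1) * (v.c - (P.f + v.m)) + v.X ≤ 12 * (v.c + 1) + I := h.yi
      have hyy : v.c ≤ P.f + v.m + 13 := h.y
      have hzm : v.z ≤ v.m := h.sn.hz
      by_cases hI : v.m - v.z ≤ I
      · obtain ⟨β', k', h1, h2, h3⟩ := C1_z (C1_of h) hc' (v.m - v.z) (by omega) hI
        have h4 : JC P ⟨o, 0, r, u, μ, ν, cb, β'⟩ (I - (v.m - v.z))
            { v with c := v.c - 1, z := 0 } :=
          C1_down (v := { v with z := v.z + (v.m - v.z) }) h3 hM hX hc'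
            (show v.m ≤ v.z + (v.m - v.z) by omega)
        rcases ih h4 hM hX (show v.c - 1 ≤ n by omega) with h5 | h5
        · left
          exact C1_good (h1.pays o 0 r u μ ν cb) (by omega) h5
        · obtain ⟨β'', I'', v'', c'', g1, g2, g3, g4, g5, g6, g7, g8, g9⟩ := h5
          exact Or.inr ⟨β'', I'', v'', k' + c'', h1.trans g1, by omega, g3, g4, g5, g6, g7, g8,
            g9⟩
      · have hy : v.c ≤ P.f + v.m + 12 := by
          by_contra hcon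
          have e1 : v.c - (P.f + v.m) = 13 := by omega
          rw [e1] at yi
          omega
        obtain ⟨β', k', h1, h2, h3⟩ := C1_z (C1_of h) hc' I (by omega) le_rfl
        left
        rw [Nat.sub_self] at h3
        refine C1_good (I' := 0) (h1.pays o 0 r u μ ν cb) (by omega) (C1_zero (h3.jc ?_) hM)
        show (v.c + 1) * (v.c - (P.f + v.m)) + v.X ≤ 12 * (v.c + 1) + 0
        have h5 : (v.c + 1) * (v.c - (P.f + v.m)) ≤ (v.c + 1) * 12 :=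
          Nat.mul_le_mul_left _ (by omega)
        omega

/-- closed payment, first part: the excess and the tops above `f + m` -/
theorem C_step1 {σ : St} {I : ℕ} {v : Vd} (h : JC P σ I v) (hM : σ.μ + 1 ≤ v.E) :
    Good P σ I ∨ ∃ (σ' : St) (I' : ℕ) (v' : Vd) (c : ℕ), Pays σ σ' c ∧ c + I' ≤ I ∧
      JC P σ' I' v' ∧ σ'.o = σ.o ∧ σ'.u = σ.u ∧ σ'.μ = σ.μ ∧ v'.E = v.E ∧ v'.w = v.w ∧
      v'.m = v.m ∧ v'.X = 0 ∧ v'.z = 0 ∧ v'.c ≤ P.f + v'.m := by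
  obtain ⟨o, a, r, u, μ, ν, cb, β⟩ := σ
  have ha : a = 0 := h.a
  subst ha
  have hM' : μ + 1 ≤ v.E := hM
  by_cases hXI : v.X ≤ I
  · obtain ⟨β', k', h1, h2, h3⟩ := C1_X h v.X le_rfl hXI
    rcases C1_loop v.c h3 hM' (show v.X - v.X = 0 from Nat.sub_self _) (le_refl v.c) with h4 | h4
    · left
      exact C1_good (h1.pays o 0 r u μ ν cb) (by omega) h4
    · obtain ⟨β'', I'', v'', c'', g1, g2, g3, g4, g5, g6, g7, g8, g9⟩ := h4
      exact Or.inr ⟨⟨o, 0, r, u, μ, ν, cb, β''⟩, I'', v'', k' + c'',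
        (h1.trans g1).pays o 0 r u μ ν cb, by omega, g3, rfl, rfl, rfl, g4, g5, g6, g7, g8, g9⟩
  · obtain ⟨β', k', h1, h2, h3⟩ := C1_X h I (by omega) le_rfl
    left
    rw [Nat.sub_self] at h3
    exact C1_good (I' := 0) (h1.pays o 0 r u μ ν cb) (by omega) (C1_zero h3 hM')

end Pool.Agent.OCN.YC
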