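import Pool.Agent.Lib_helper16.OCN.YcJT
import Pool.Agent.Lib_helper28.OCN.YcB1

/-!
# MP_aeb124_co: number game, block W: waiting positions with money
-/

set_option autoImplicit false

namespace Pool.Agent.OCN.YC

variable {P : Par}

theorem W_good {σ σ' : St} {I c : ℕ} (h : Pays σ σ' c) (hc : c ≤ I) (hg : Good P σ' (I - c)) :
    Good P σ I := by
  obtain ⟨σ'', c', h1, h2, h3⟩ := hg
  exact ⟨σ'', c + c', h.trans h1, by omega, h3⟩

theorem W_nd_le (v : Vd) {need : ℤ} (h : 0 ≤ need) : nd v need ≤ 8 * need := by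
  unfold nd
  have h1 : (0 : ℤ) ≤ (v.n : ℤ) * v.d + v.p := by positivity
  have : max 0 (need - ((v.n : ℤ) * v.d + v.p)) ≤ need := max_le h (by linarith)
  linarith

theorem W_nd_zero (v : Vd) {need : ℤ} (h : need ≤ (v.n : ℤ) * v.d + v.p) : nd v need = 0 := by
  unfold nd
  rw [max_eq_left (by linarith), mul_zero]

theorem W_al {f : ℕ} {v : Vd} (h : v.w = 0) : al f v = 0 := by
  unfold al
  rw [if_pos h]

/-- waiting -/
theorem block_W (hZ : HZ P) (N : ℕ) (hC : HC P N) (hL : HL P N) : HW P (N + 1) := by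
  rintro ⟨o, a, r, u, μ, ν, cb, β⟩ I v h hN
  obtain ⟨ws, hI, I1, ps, pv, ex⟩ := h
  obtain ⟨sn, ha, hμ, hE, hw, hz, hX, hc, hA⟩ := ws
  have ha' : a = 0 := ha
  have hμ' : μ = 0 := hμ
  subst ha' hμ'
  have sn' : Sn P o u 0 β v := sn
  have hI' : I ≤ o + 1 := hI
  have ps' : T4 P o ≤ Psi P o 0 v + 8 * (I : ℤ) + 8 * ((v.c : ℤ) + 4) := ps
  have pv' : v.md = true → T4 P o ≤ Vee P o 0 v + 8 * I := pv
  have ex' : P.W = u + v.E → o ≤ I ∨ I + v.E = o := ex
  have hm := sn'.hm
  obtain ⟨b1, b2, b3, b4⟩ := barJ (e := 8 * ((v.c : ℤ) + 4)) sn' hI' (by omega) (by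
    rw [hz]
    omega) ps'
  by_cases hWE : P.W = u + v.E
  · obtain ⟨j, γ, v', h1, h2, h3, h4, h5, h6, h7, h8, h9, h10, h11, h12, h13⟩ :=
      st_conv sn' hE hw hX hz hc hA hWE
    subst h1
    have hK : 11 ≤ P.K := le_trans (Nat.le_add_left _ _) P.hK
    obtain ⟨ρ, hρ⟩ : ∃ ρ : ℤ, ρ = max 0 ((v'.c : ℤ) - v'.m) + 1 := ⟨_, rfl⟩
    have c6 : (v'.c : ℤ) = v.c + 1 := by omega
    have c7 : (v'.m : ℤ) = v.m - 1 := by omega
    rw [c6, c7] at hρ
    have hρ0 : 1 ≤ ρ := by
      have := le_max_left 0 ((v.c : ℤ) + 1 - (v.m - 1))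
      omega
    have hps : T4 P o + 8 * ρ ≤ Psi P o o v' + 8 * I := by
      have m1 := le_max_left (8 * (v.c : ℤ) + 52) (16 * (v.c : ℤ) - 8 * v.m + 60)
      have m2 := le_max_right (8 * (v.c : ℤ) + 52) (16 * (v.c : ℤ) - 8 * v.m + 60)
      rcases le_total ((v.c : ℤ) + 1 - (v.m - 1)) 0 with hh | hh
      · rw [max_eq_left hh] at hρ
        linarith
      · rw [max_eq_right hh] at hρ
        linarith
    have hJL : JL P ⟨o, o, 1, u + 1, 0, 1, j + 1, γ.map (· + 1)⟩ I v' ρ := by
      refine ⟨h3, rfl, rfl, rfl, hI', Nat.le_add_left _ _, ?_, ?_, h5, h8, ?_, hps, ?_, ?_, ?_⟩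
      · show j + 1 ≤ v'.c
        omega
      · left
        show j + 1 ≤ o
        omega
      · omega
      · intro hmd
        have hmd' : v.md = true := by rw [← h9]; exact hmd
        have hn := sn'.hn
        have k1 := h10 hmd'
        have k2 := h12 hmd'
        have k3 := pv' hmd'
        have k4 : nd v' ((v'.c : ℤ) + P.K + 20 + ρ) = 0 := by
          refine W_nd_zero v' ?_
          have k5 : (v.n : ℤ) * v.d + v.p + v.n ≤ (v'.n : ℤ) * v'.d + v'.p := by
            exact_mod_cast k1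
          have k6 : (0 : ℤ) ≤ (v.n : ℤ) * v.d + v.p := by positivity
          rw [c6]
          rcases le_total ((v.c : ℤ) + 1 - (v.m - 1)) 0 with hh | hh
          · rw [max_eq_left hh] at hρ
            omega
          · rw [max_eq_right hh] at hρ
            omega
        show T4 P o + nd v' ((v'.c : ℤ) + P.K + 20 + ρ) ≤ Vee P o o v' + 8 * I
        rw [k4]
        linarith
      · intro hE0
        have hE0' : v'.E = 0 := hE0
        show TP P o v' ≤ Pee P o o v' + 8 * I
        have hKo : 11 * (o : ℤ) ≤ P.K * o :=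
          mul_le_mul_of_nonneg_right (by exact_mod_cast hK) (Int.natCast_nonneg _)
        refine P_of_Psi (e := 0) h5 (by omega) (by omega) (by omega) (by omega) ?_ (by omega)
          (by linarith)
        rw [h8]
        push_cast
        linarith
      · right
        refine ⟨rfl, ?_, ?_⟩
        · rcases ex' hWE with hh | hh
          · exact Or.inl hh
          · right
            show o ≤ I + v'.E + 2 ∧ I + v'.E ≤ o + 1
            omega
        · rw [c6, c7, hρ]
    have hg := hL _ I v' ρ hJL (by omega)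
    exact W_good (c := 0) (Pays.single (Pay.conv o r u ν cb j γ)) (Nat.zero_le _) hg
  · have hWE' : P.W + 1 ≤ u + v.E := by
      have := sn'.hE
      omega
    obtain ⟨v', h1, h2, h3, h4, h5, h6, h7, h8, h9, h10, h11⟩ :=
      st_v sn' (by omega) hw hX hz hc hWE' (by omega)
    have hK : 11 ≤ P.K := le_trans (Nat.le_add_left _ _) P.hK
    have hKo : 11 * (o : ℤ) ≤ P.K * o :=
      mul_le_mul_of_nonneg_right (by exact_mod_cast hK) (Int.natCast_nonneg _)
    have k9 := h9 0
    have k1 : T4 P o ≤ Psi P o 0 v' + 8 * I := by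
      have : 8 * ((v.c : ℤ) + 4) ≤ 8 * o := by omega
      linarith
    refine hC _ I v' ⟨h1, rfl, hI', by omega, ?_, ?_, fun hmd => ?_, fun _ => ?_⟩ (by omega)
    · have : v'.c - (P.f + v'.m) ≤ 1 := by omega
      have h12 : (v'.c + 1) * (v'.c - (P.f + v'.m)) ≤ (v'.c + 1) * 1 :=
        Nat.mul_le_mul_left _ this
      omega
    · show T4 P o ≤ Psi P o 0 v' + 8 * I + al P.f v'
      rw [W_al h3]
      linarith
    · have l1 := pv' (h7 hmd)
      have l2 := h10 0 hmd
      have l3 : nd v' ((v'.c : ℤ) + P.K + 20) ≤ 8 * ((v'.c : ℤ) + P.K + 20) :=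
        W_nd_le v' (by omega)
      show T4 P o + nd v' ((v'.c : ℤ) + P.K + 20) ≤ Vee P o 0 v' + 8 * I + al P.f v'
      rw [W_al h3]
      have : 8 * ((v'.c : ℤ) + P.K + 20) ≤ 8 * o := by omega
      linarith
    · show TP P o v' ≤ Pee P o 0 v' + 8 * I
      refine P_of_Psi (e := 0) h3 (by omega) (by omega) (by omega) (by omega) ?_ (by omega)
        (by linarith)
      have : (v'.X : ℤ) ≤ o := by omega
      push_cast
      linarith

end Pool.Agent.OCN.YC
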