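import Pool.Agent.Lib_helper16.OCN.YcNum

/-!
# MP_aeb124_co: the number game of the class Yc, multisets and payments

`Pays` is transitive. `Lw S S' c`: the multiset `S` is lowered to `S'` at the price `c`.
`ex t S` is the sum of the excesses over `t`, `exs p q S` the sum of the `d + p - q`.
-/

set_option autoImplicit false

namespace Pool.Agent.OCN.YC

/-! ### payments -/

theorem Pays.single {σ σ' : St} {c : ℕ} (h : Pay σ σ' c) : Pays σ σ' c := by
  have h1 := Pays.step (Pays.refl σ) h
  rwa [zero_add] at h1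

theorem Pays.trans {σ σ' σ'' : St} {c c' : ℕ} (h : Pays σ σ' c) (h' : Pays σ' σ'' c') :
    Pays σ σ'' (c + c') := by
  induction h' with
  | refl => exact h
  | step _ h2 ih =>
    rw [← add_assoc]
    exact Pays.step ih h2

theorem Pays.eq {σ σ' : St} {c c' : ℕ} (h : Pays σ σ' c) (hc : c = c') : Pays σ σ' c' :=
  hc ▸ h

/-! ### lowering of multisets -/

/-- `S` is lowered to `S'` at the price `c` -/
inductive Lw : Multiset ℕ → Multiset ℕ → ℕ → Prop
  | refl (S : Multiset ℕ) : Lw S S 0
  | step {S γ : Multiset ℕ} {j c : ℕ} (h : Lw S ((j + 1) ::ₘ γ) c) : Lw S (j ::ₘ γ) (c + 1)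

theorem Lw.one (j : ℕ) (γ : Multiset ℕ) : Lw ((j + 1) ::ₘ γ) (j ::ₘ γ) 1 := by
  have h := Lw.step (Lw.refl ((j + 1) ::ₘ γ))
  rwa [zero_add] at h

theorem Lw.trans {S S' S'' : Multiset ℕ} {c c' : ℕ} (h : Lw S S' c) (h' : Lw S' S'' c') :
    Lw S S'' (c + c') := by
  induction h' with
  | refl => exact h
  | step _ ih =>
    rw [← add_assoc]
    exact Lw.step ih

theorem Lw.add_left {S S' : Multiset ℕ} {c : ℕ} (h : Lw S S' c) (T : Multiset ℕ) :
    Lw (T + S) (T + S') c := by
  induction h with
  | refl => exact Lw.refl _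
  | step _ ih =>
    rw [Multiset.add_cons] at ih ⊢
    exact Lw.step ih

theorem Lw.add_right {S S' : Multiset ℕ} {c : ℕ} (h : Lw S S' c) (T : Multiset ℕ) :
    Lw (S + T) (S' + T) c := by
  rw [add_comm S T, add_comm S' T]
  exact h.add_left T

theorem Lw.cons {S S' : Multiset ℕ} {c : ℕ} (h : Lw S S' c) (j : ℕ) :
    Lw (j ::ₘ S) (j ::ₘ S') c := by
  have h1 := h.add_left {j}
  rwa [Multiset.singleton_add, Multiset.singleton_add] at h1

theorem Lw.add {S S' T T' : Multiset ℕ} {c d : ℕ} (h : Lw S S' c) (h' : Lw T T' d) :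
    Lw (S + T) (S' + T') (c + d) :=
  (h.add_right T).trans (h'.add_left S')

/-- one element goes down by `k` -/
theorem Lw.down (j k : ℕ) (γ : Multiset ℕ) : Lw ((j + k) ::ₘ γ) (j ::ₘ γ) k := by
  induction k with
  | zero => exact Lw.refl _
  | succ k ih =>
    have h1 := Lw.one (j + k) γ
    have h2 := h1.trans ih
    rw [add_comm 1 k] at h2
    exact h2

theorem Lw.card {S S' : Multiset ℕ} {c : ℕ} (h : Lw S S' c) :
    Multiset.card S' = Multiset.card S := by
  induction h with
  | refl => rfl
  | step _ ih =>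
    rw [Multiset.card_cons] at ih ⊢
    exact ih

theorem Lw.sum {S S' : Multiset ℕ} {c : ℕ} (h : Lw S S' c) : S'.sum + c = S.sum := by
  induction h with
  | refl => rfl
  | step _ ih =>
    rw [Multiset.sum_cons] at ih ⊢
    omega

/-- upper bounds are kept -/
theorem Lw.le {S S' : Multiset ℕ} {c b : ℕ} (h : Lw S S' c) (hb : ∀ d ∈ S, d ≤ b) :
    ∀ d ∈ S', d ≤ b := by
  induction h with
  | refl => exact hb
  | step _ ih =>
    intro d hd
    rcases Multiset.mem_cons.1 hd with h1 | h1
    · have := ih _ (Multiset.mem_cons_self _ _)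
      omega
    · exact ih d (Multiset.mem_cons_of_mem h1)

/-- the payments -/
theorem Lw.pays {S S' : Multiset ℕ} {c : ℕ} (h : Lw S S' c) (o a r u μ ν cb : ℕ) :
    Pays ⟨o, a, r, u, μ, ν, cb, S⟩ ⟨o, a, r, u, μ, ν, cb, S'⟩ c := by
  induction h with
  | refl => exact Pays.refl _
  | step _ ih => exact Pays.step ih (Pay.base o a r u μ ν cb _ _)

/-! ### sums -/

/-- the sum of the `d + p - q` -/
def exs (p q : ℕ) (S : Multiset ℕ) : ℕ := (S.map fun d => d + p - q).sum

/-- the excess over `t` -/
def ex (t : ℕ) (S : Multiset ℕ) : ℕ := exs 0 t S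

@[simp] theorem exs_zero (p q : ℕ) : exs p q 0 = 0 := rfl

@[simp] theorem exs_cons (p q j : ℕ) (S : Multiset ℕ) :
    exs p q (j ::ₘ S) = (j + p - q) + exs p q S := by
  unfold exs
  rw [Multiset.map_cons, Multiset.sum_cons]

@[simp] theorem exs_add (p q : ℕ) (S T : Multiset ℕ) :
    exs p q (S + T) = exs p q S + exs p q T := by
  unfold exs
  rw [Multiset.map_add, Multiset.sum_add]

@[simp] theorem ex_zero (t : ℕ) : ex t 0 = 0 := rfl

@[simp] theorem ex_cons (t j : ℕ) (S : Multiset ℕ) : ex t (j ::ₘ S) = (j - t) + ex t S := by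
  unfold ex
  rw [exs_cons, add_zero]

@[simp] theorem ex_add (t : ℕ) (S T : Multiset ℕ) : ex t (S + T) = ex t S + ex t T :=
  exs_add 0 t S T

theorem exs_replicate (p q n j : ℕ) : exs p q (Multiset.replicate n j) = n * (j + p - q) := by
  unfold exs
  rw [Multiset.map_replicate, Multiset.sum_replicate, smul_eq_mul]

theorem ex_replicate (t n j : ℕ) : ex t (Multiset.replicate n j) = n * (j - t) := by
  unfold ex
  rw [exs_replicate, add_zero]

/-- after a conversion: all elements are one higher -/
theorem exs_map_succ (p q : ℕ) (S : Multiset ℕ) : exs p q (S.map (· + 1)) = exs (p + 1) q S := by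
  unfold exs
  rw [Multiset.map_map]
  congr 1
  refine Multiset.map_congr rfl fun d _ => ?_
  simp only [Function.comp]
  omega

theorem ex_map_succ (t : ℕ) (S : Multiset ℕ) : ex t (S.map (· + 1)) = exs 1 t S := by
  unfold ex
  rw [exs_map_succ]

theorem exs_succ_succ (p q : ℕ) (S : Multiset ℕ) : exs (p + 1) (q + 1) S = exs p q S := by
  unfold exs
  congr 1
  refine Multiset.map_congr rfl fun d _ => ?_
  omega

theorem ex_succ_map_succ (t : ℕ) (S : Multiset ℕ) : ex (t + 1) (S.map (· + 1)) = ex t S := by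
  rw [ex_map_succ]
  exact exs_succ_succ 0 t S

/-- monotone in `p`, with the number of elements as slope -/
theorem exs_succ_le (p q : ℕ) (S : Multiset ℕ) :
    exs (p + 1) q S ≤ exs p q S + Multiset.card S := by
  induction S using Multiset.induction_on with
  | empty => exact Nat.zero_le _
  | cons j S ih =>
    rw [exs_cons, exs_cons, Multiset.card_cons]
    omega

theorem exs_le_succ (p q : ℕ) (S : Multiset ℕ) : exs p q S ≤ exs (p + 1) q S := by
  induction S using Multiset.induction_on with
  | empty => exact Nat.zero_le _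
  | cons j S ih =>
    rw [exs_cons, exs_cons]
    omega

/-- the exact change: the number of elements `d` with `q ≤ d + p` -/
theorem exs_succ (p q : ℕ) (S : Multiset ℕ) :
    exs (p + 1) q S = exs p q S + Multiset.card (S.filter fun d => q ≤ d + p) := by
  induction S using Multiset.induction_on with
  | empty => rfl
  | cons j S ih =>
    rw [exs_cons, exs_cons]
    by_cases h : q ≤ j + p
    · rw [Multiset.filter_cons_of_pos (p := fun d => q ≤ d + p) S h, Multiset.card_cons]
      omega
    · rw [Multiset.filter_cons_of_neg (p := fun d => q ≤ d + p) S h]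
      omega

theorem exs_le_card_mul {p q b : ℕ} {S : Multiset ℕ} (h : ∀ d ∈ S, d ≤ b) :
    exs p q S ≤ Multiset.card S * (b + p - q) := by
  induction S using Multiset.induction_on with
  | empty => exact Nat.zero_le _
  | cons j S ih =>
    rw [exs_cons, Multiset.card_cons]
    have h1 := h j (Multiset.mem_cons_self _ _)
    have h2 := ih fun d hd => h d (Multiset.mem_cons_of_mem hd)
    rw [Nat.add_mul, one_mul]
    omega

theorem ex_le_card_mul {t b : ℕ} {S : Multiset ℕ} (h : ∀ d ∈ S, d ≤ b) :
    ex t S ≤ Multiset.card S * (b - t) := by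
  have h1 := exs_le_card_mul (p := 0) (q := t) h
  rw [add_zero] at h1
  exact h1

theorem card_mul_le_exs {p q b : ℕ} {S : Multiset ℕ} (h : ∀ d ∈ S, b ≤ d) :
    Multiset.card S * (b + p - q) ≤ exs p q S := by
  induction S using Multiset.induction_on with
  | empty =>
    rw [Multiset.card_zero, Nat.zero_mul]
    exact Nat.zero_le _
  | cons j S ih =>
    rw [exs_cons, Multiset.card_cons]
    have h1 := h j (Multiset.mem_cons_self _ _)
    have h2 := ih fun d hd => h d (Multiset.mem_cons_of_mem hd)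
    rw [Nat.add_mul, one_mul]
    omega

theorem ex_eq_zero {t : ℕ} {S : Multiset ℕ} : ex t S = 0 ↔ ∀ d ∈ S, d ≤ t := by
  induction S using Multiset.induction_on with
  | empty => simp
  | cons j S ih =>
    rw [ex_cons, Nat.add_eq_zero_iff, ih, Multiset.forall_mem_cons]
    constructor
    · rintro ⟨h1, h2⟩
      exact ⟨by omega, h2⟩
    · rintro ⟨h1, h2⟩
      exact ⟨by omega, h2⟩

theorem exs_eq_ex {p q : ℕ} (h : p ≤ q) (S : Multiset ℕ) : exs p q S = ex (q - p) S := by
  unfold ex exs
  congr 1
  refine Multiset.map_congr rfl fun d _ => ?_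
  omega

theorem exs_eq_sum {p q : ℕ} (h : q ≤ p) (S : Multiset ℕ) :
    exs p q S = S.sum + Multiset.card S * (p - q) := by
  induction S using Multiset.induction_on with
  | empty => simp
  | cons j S ih =>
    rw [exs_cons, ih, Multiset.sum_cons, Multiset.card_cons, Nat.add_mul, one_mul]
    omega

theorem ex_anti {t t' : ℕ} (h : t ≤ t') (S : Multiset ℕ) : ex t' S ≤ ex t S := by
  induction S using Multiset.induction_on with
  | empty => exact Nat.zero_le _
  | cons j S ih =>
    rw [ex_cons, ex_cons]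
    omega

/-- one more excess: the number of elements above -/
theorem ex_succ (t : ℕ) (S : Multiset ℕ) :
    ex t S = ex (t + 1) S + Multiset.card (S.filter fun d => t < d) := by
  induction S using Multiset.induction_on with
  | empty => rfl
  | cons j S ih =>
    rw [ex_cons, ex_cons]
    by_cases h : t < j
    · rw [Multiset.filter_cons_of_pos (p := fun d => t < d) S h, Multiset.card_cons]
      omega
    · rw [Multiset.filter_cons_of_neg (p := fun d => t < d) S h]
      omega

/-- a lowering does not raise the sums -/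
theorem Lw.exs_le {S S' : Multiset ℕ} {c : ℕ} (h : Lw S S' c) (p q : ℕ) :
    exs p q S' ≤ exs p q S := by
  induction h with
  | refl => exact le_rfl
  | step _ ih =>
    rw [exs_cons] at ih ⊢
    omega

theorem Lw.exs_ge {S S' : Multiset ℕ} {c : ℕ} (h : Lw S S' c) (p q : ℕ) :
    exs p q S ≤ exs p q S' + c := by
  induction h with
  | refl => exact le_rfl
  | step _ ih =>
    rw [exs_cons] at ih ⊢
    omega

/-! ### the two ways of lowering -/

/-- all elements are lowered to at most `b`, at the price `ex b S` -/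
theorem Lw.cap (b : ℕ) (S : Multiset ℕ) : Lw S (S.map fun d => min d b) (ex b S) := by
  induction S using Multiset.induction_on with
  | empty => exact Lw.refl _
  | cons j S ih =>
    rw [Multiset.map_cons, ex_cons]
    have h1 : Lw (j ::ₘ S) (min j b ::ₘ S) (j - b) := by
      have h2 := Lw.down (min j b) (j - b) S
      have h3 : min j b + (j - b) = j := by omega
      rwa [h3] at h2
    exact h1.trans (ih.cons _)

theorem cap_le (b : ℕ) (S : Multiset ℕ) : ∀ d ∈ S.map (fun d => min d b), d ≤ b := by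
  intro d hd
  obtain ⟨d', _, rfl⟩ := Multiset.mem_map.1 hd
  exact min_le_right _ _

theorem exs_cap {b p q : ℕ} (h : q ≤ b + p) (S : Multiset ℕ) :
    exs p q (S.map fun d => min d b) + ex b S = exs p q S := by
  induction S using Multiset.induction_on with
  | empty => rfl
  | cons j S ih =>
    rw [Multiset.map_cons, exs_cons, exs_cons, ex_cons]
    omega

/-- the maximal element -/
theorem exists_max (S : Multiset ℕ) (h : S ≠ 0) : ∃ j γ, S = j ::ₘ γ ∧ ∀ d ∈ S, d ≤ j := by
  induction S using Multiset.induction_on with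
  | empty => exact absurd rfl h
  | cons i S ih =>
    by_cases hS : S = 0
    · subst hS
      refine ⟨i, 0, rfl, fun d hd => ?_⟩
      rcases Multiset.mem_cons.1 hd with h1 | h1
      · exact h1.le
      · exact absurd h1 (Multiset.notMem_zero d)
    · obtain ⟨j, γ, h1, h2⟩ := ih hS
      by_cases hij : i ≤ j
      · refine ⟨j, i ::ₘ γ, ?_, fun d hd => ?_⟩
        · rw [h1, Multiset.cons_swap]
        · rcases Multiset.mem_cons.1 hd with h3 | h3
          · omega
          · exact h2 d h3
      · refine ⟨i, S, rfl, fun d hd => ?_⟩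
        rcases Multiset.mem_cons.1 hd with h3 | h3
        · exact h3.le
        · have := h2 d h3
          omega

/-- the largest elements are lowered first: the money `I` is at most the excess over `th` -/
theorem Lw.fill (S : Multiset ℕ) (th I : ℕ) (hI : I ≤ ex th S) :
    ∃ S', Lw S S' I ∧ (∀ b, th ≤ b → ex b S' = ex b S - I) ∧
      (∀ p q, q ≤ th + p → exs p q S' + I = exs p q S) ∧
      (S'.filter fun d => d < th) = S.filter fun d => d < th := by
  induction I with
  | zero => exact ⟨S, Lw.refl S, fun b _ => rfl, fun p q _ => rfl, rfl⟩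
  | succ I ih =>
    obtain ⟨S', h1, h2, h3, h4⟩ := ih (by omega)
    have h5 := h2 th le_rfl
    have hne : S' ≠ 0 := by
      rintro rfl
      rw [ex_zero] at h5
      omega
    obtain ⟨j, γ, rfl, h7⟩ := exists_max S' hne
    have hj : th < j := by
      by_contra hlt
      have h8 : ex th (j ::ₘ γ) = 0 := ex_eq_zero.2 fun d hd => (h7 d hd).trans (by omega)
      omega
    obtain ⟨i, rfl⟩ : ∃ i, j = i + 1 := ⟨j - 1, by omega⟩
    refine ⟨i ::ₘ γ, Lw.step h1, fun b hb => ?_, fun p q hq => ?_, ?_⟩
    · have h8 := h2 b hb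
      rw [ex_cons] at h8 ⊢
      by_cases hbi : b ≤ i
      · omega
      · have h9 : ex b γ = 0 := ex_eq_zero.2 fun d hd =>
          (h7 d (Multiset.mem_cons_of_mem hd)).trans (by omega)
        omega
    · have h8 := h3 p q hq
      rw [exs_cons] at h8 ⊢
      omega
    · rw [← h4, Multiset.filter_cons_of_neg (p := fun d => d < th) γ (by omega),
        Multiset.filter_cons_of_neg (p := fun d => d < th) γ (by omega)]

/-- as `Lw.fill`, the money which is not used is lost -/
theorem Lw.fill' (S : Multiset ℕ) (th I : ℕ) :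
    ∃ S', Lw S S' (min I (ex th S)) ∧ (∀ b, th ≤ b → ex b S' = ex b S - I) ∧
      (∀ p q, q ≤ th + p → exs p q S' + min I (ex th S) = exs p q S) ∧
      (S'.filter fun d => d < th) = S.filter fun d => d < th := by
  obtain ⟨S', h1, h2, h3, h4⟩ := Lw.fill S th (min I (ex th S)) (min_le_right _ _)
  refine ⟨S', h1, fun b hb => ?_, h3, h4⟩
  rw [h2 b hb]
  have := ex_anti hb S
  omega

/-! ### splitting into tops and survivors -/

/-- the `k` largest elements -/
theorem exists_tops (β : Multiset ℕ) (k : ℕ) (hk : k ≤ Multiset.card β) :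
    ∃ T S, β = T + S ∧ Multiset.card T = k ∧ ∀ t ∈ T, ∀ s ∈ S, s ≤ t := by
  induction k generalizing β with
  | zero =>
    refine ⟨0, β, (zero_add β).symm, Multiset.card_zero, fun t ht => ?_⟩
    exact absurd ht (Multiset.notMem_zero t)
  | succ k ih =>
    have hne : β ≠ 0 := by
      rintro rfl
      rw [Multiset.card_zero] at hk
      omega
    obtain ⟨j, γ, rfl, h2⟩ := exists_max β hne
    rw [Multiset.card_cons] at hk
    obtain ⟨T, S, h3, h4, h5⟩ := ih γ (by omega)
    refine ⟨j ::ₘ T, S, ?_, ?_, fun t ht s hs => ?_⟩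
    · rw [h3, Multiset.cons_add]
    · rw [Multiset.card_cons, h4]
    · rcases Multiset.mem_cons.1 ht with h6 | h6
      · rw [h6]
        apply h2 s
        rw [h3]
        exact Multiset.mem_cons_of_mem (Multiset.mem_add.2 (Or.inr hs))
      · exact h5 t h6 s hs

/-- the attack of a base element: it gets the level 0, and there is one top less -/
theorem tops_att {T S γ : Multiset ℕ} {j k : ℕ} (h : T + S = j ::ₘ γ)
    (hk : Multiset.card T = k + 1) :
    ∃ T' S', 0 ::ₘ γ = T' + S' ∧ Multiset.card T' = k ∧ T' ≤ T ∧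
      ((T = j ::ₘ T' ∧ S' = 0 ::ₘ S) ∨
        ∃ t S0, T = t ::ₘ T' ∧ S = j ::ₘ S0 ∧ S' = 0 ::ₘ t ::ₘ S0) := by
  have hj : j ∈ T + S := by
    rw [h]
    exact Multiset.mem_cons_self _ _
  rcases Multiset.mem_add.1 hj with h1 | h1
  · obtain ⟨T', rfl⟩ := Multiset.exists_cons_of_mem h1
    rw [Multiset.cons_add, Multiset.cons_inj_right] at h
    rw [Multiset.card_cons] at hk
    refine ⟨T', 0 ::ₘ S, ?_, by omega, Multiset.le_cons_self _ _, Or.inl ⟨rfl, rfl⟩⟩
    rw [Multiset.add_cons, h]
  · obtain ⟨S0, rfl⟩ := Multiset.exists_cons_of_mem h1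
    have hne : T ≠ 0 := by
      rintro rfl
      rw [Multiset.card_zero] at hk
      omega
    obtain ⟨t, ht⟩ := Multiset.exists_mem_of_ne_zero hne
    obtain ⟨T', rfl⟩ := Multiset.exists_cons_of_mem ht
    rw [Multiset.card_cons] at hk
    rw [Multiset.add_cons, Multiset.cons_inj_right, Multiset.cons_add] at h
    refine ⟨T', 0 ::ₘ t ::ₘ S0, ?_, by omega, Multiset.le_cons_self _ _,
      Or.inr ⟨t, S0, rfl, rfl, rfl⟩⟩
    rw [Multiset.add_cons, Multiset.add_cons, h]

/-- the removal of a base element: there is one top less -/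
theorem tops_del {T S γ : Multiset ℕ} {j k : ℕ} (h : T + S = j ::ₘ γ)
    (hk : Multiset.card T = k + 1) :
    ∃ T' S', γ = T' + S' ∧ Multiset.card T' = k ∧ T' ≤ T ∧
      ((T = j ::ₘ T' ∧ S' = S) ∨ ∃ t S0, T = t ::ₘ T' ∧ S = j ::ₘ S0 ∧ S' = t ::ₘ S0) := by
  have hj : j ∈ T + S := by
    rw [h]
    exact Multiset.mem_cons_self _ _
  rcases Multiset.mem_add.1 hj with h1 | h1
  · obtain ⟨T', rfl⟩ := Multiset.exists_cons_of_mem h1
    rw [Multiset.cons_add, Multiset.cons_inj_right] at h
    rw [Multiset.card_cons] at hk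
    exact ⟨T', S, h.symm, by omega, Multiset.le_cons_self _ _, Or.inl ⟨rfl, rfl⟩⟩
  · obtain ⟨S0, rfl⟩ := Multiset.exists_cons_of_mem h1
    have hne : T ≠ 0 := by
      rintro rfl
      rw [Multiset.card_zero] at hk
      omega
    obtain ⟨t, ht⟩ := Multiset.exists_mem_of_ne_zero hne
    obtain ⟨T', rfl⟩ := Multiset.exists_cons_of_mem ht
    rw [Multiset.card_cons] at hk
    rw [Multiset.add_cons, Multiset.cons_inj_right, Multiset.cons_add] at h
    refine ⟨T', t ::ₘ S0, ?_, by omega, Multiset.le_cons_self _ _,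
      Or.inr ⟨t, S0, rfl, rfl, rfl⟩⟩
    rw [Multiset.add_cons, h]

/-- an attack that frees a top (the window start attacks): one top becomes a survivor -/
theorem tops_free {T S : Multiset ℕ} {k : ℕ} (hk : Multiset.card T = k + 1) :
    ∃ t T', T = t ::ₘ T' ∧ T + S = T' + (t ::ₘ S) ∧ Multiset.card T' = k := by
  have hne : T ≠ 0 := by
    rintro rfl
    rw [Multiset.card_zero] at hk
    omega
  obtain ⟨t, ht⟩ := Multiset.exists_mem_of_ne_zero hne
  obtain ⟨T', rfl⟩ := Multiset.exists_cons_of_mem ht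
  rw [Multiset.card_cons] at hk
  refine ⟨t, T', rfl, ?_, by omega⟩
  rw [Multiset.cons_add, Multiset.add_cons]

/-- the conversion of the top `j` -/
theorem pays_conv (o r u ν cb j : ℕ) (T S : Multiset ℕ) :
    Pays ⟨o, 0, r, u, 0, ν, cb, (j ::ₘ T) + S⟩
      ⟨o, o, 1, u + 1, 0, 1, j + 1, T.map (· + 1) + S.map (· + 1)⟩ 0 := by
  rw [Multiset.cons_add, ← Multiset.map_add]
  exact Pays.single (Pay.conv o r u ν cb j (T + S))

/-- the opening of a start of the main part -/
theorem pays_opn (o r u μ ν cb : ℕ) (β : Multiset ℕ) :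
    Pays ⟨o, 0, r, u, μ + 1, ν, cb, β⟩ ⟨o, o, 1, u + 1, μ, 1, 0, β⟩ 0 :=
  Pays.single (Pay.opn o r u μ ν cb β)

/-- `k` unfinished elements are finished -/
theorem pays_one (o a r u μ ν cb k : ℕ) (β : Multiset ℕ) :
    Pays ⟨o, a + k, r, u, μ, ν, cb, β⟩ ⟨o, a, r, u, μ, ν, cb, β⟩ (r * k) := by
  induction k with
  | zero => exact Pays.refl _
  | succ k ih =>
    have h1 := (Pays.single (Pay.one o (a + k) r u μ ν cb β)).trans ih
    refine h1.eq ?_
    rw [Nat.mul_add, mul_one, add_comm]

/-- the window is closed -/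
theorem pays_close (o a r u μ ν cb ν' cb' : ℕ) (β : Multiset ℕ) :
    Pays ⟨o, a, r, u, μ, ν, cb, β⟩ ⟨o, 0, 0, u, μ, ν', cb', β⟩ (r * a) := by
  have h1 := pays_one o 0 r u μ ν cb a β
  rw [zero_add] at h1
  exact (h1.trans (Pays.single (Pay.nrm o r u μ ν cb ν' cb' β))).eq (add_zero _)

/-- the payment of the window as far as the money goes: at most `r - 1` units are lost -/
theorem pays_window (o a r u μ ν cb I : ℕ) (β : Multiset ℕ) (hr : 1 ≤ r) :
    ∃ a' c, a' ≤ a ∧ c ≤ I ∧ r * a = r * a' + c ∧ (a' = 0 ∨ I < c + r) ∧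
      Pays ⟨o, a, r, u, μ, ν, cb, β⟩ ⟨o, a', r, u, μ, ν, cb, β⟩ c := by
  set k := min a (I / r) with hk
  have hka : k ≤ a := min_le_left _ _
  have h1 := pays_one o (a - k) r u μ ν cb k β
  rw [Nat.sub_add_cancel hka] at h1
  have h2 : r * k ≤ I := by
    have h3 : r * k ≤ r * (I / r) := Nat.mul_le_mul_left r (min_le_right _ _)
    exact h3.trans (Nat.mul_div_le I r)
  refine ⟨a - k, r * k, Nat.sub_le _ _, h2, ?_, ?_, h1⟩
  · rw [← Nat.mul_add, Nat.sub_add_cancel hka]
  · by_cases h4 : a ≤ I / r
    · left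
      rw [hk, min_eq_left h4]
      exact Nat.sub_self a
    · right
      rw [hk, min_eq_right (by omega)]
      have h5 := Nat.div_add_mod I r
      have h6 := Nat.mod_lt I hr
      omega

end Pool.Agent.OCN.YC
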